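import Mathlib

set_option autoImplicit false

open MvPolynomial

namespace Pool.Agent.Helper43.PLap

noncomputable section

/-- chain rule for substitutions -/
lemma pderiv_bind {R σ τ : Type*} [CommRing R] [Fintype σ] (φ : σ → MvPolynomial τ R) (j : τ)
    (f : MvPolynomial σ R) :
    pderiv j (bind₁ φ f) = ∑ i, bind₁ φ (pderiv i f) * pderiv j (φ i) := by
  classical
  induction f using MvPolynomial.induction_on with
  | C a => simp
  | add p q hp hq =>
    simp only [map_add, hp, hq, add_mul, Finset.sum_add_distrib]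
  | mul_X p k hp =>
    rw [map_mul, bind₁_X_right, pderiv_mul, hp, Finset.sum_mul]
    have : ∀ i, bind₁ φ (pderiv i (p * X k)) * pderiv j (φ i) =
        bind₁ φ (pderiv i p) * pderiv j (φ i) * φ k +
          (if i = k then bind₁ φ p * pderiv j (φ k) else 0) := by
      intro i
      rw [pderiv_mul, map_add, map_mul, map_mul, bind₁_X_right, pderiv_X]
      by_cases h : i = k
      · subst h; simp; ring
      · simp [h, Pi.single_apply, Ne.symm h]; ring
    rw [Finset.sum_congr rfl (fun i _ => this i), Finset.sum_add_distrib]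
    simp

lemma pderiv_comm {R σ : Type*} [CommRing R] (i j : σ) (f : MvPolynomial σ R) :
    pderiv i (pderiv j f) = pderiv j (pderiv i f) := by
  classical
  induction f using MvPolynomial.induction_on with
  | C a => simp
  | add p q hp hq => simp only [map_add, hp, hq]
  | mul_X p k hp =>
    have hX : ∀ l : σ, pderiv l (X k : MvPolynomial σ R) = C (if l = k then 1 else 0) := by
      intro l
      rw [pderiv_X]
      by_cases h : l = k
      · subst h; simp
      · simp [h]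
    simp only [pderiv_mul, hX, map_add, hp, pderiv_C]
    ring

/-- the weight of an exponent -/
def wt (ω : Fin 3 → ℕ) (d : Fin 3 →₀ ℕ) : ℕ := ω 0 * d 0 + ω 1 * d 1 + ω 2 * d 2

/-- the rescaled polynomial -/
def Vt (ω : Fin 3 → ℕ) (W : ℕ) (U : MvPolynomial (Fin 3) ℂ) (t : ℂ) : MvPolynomial (Fin 3) ℂ :=
  ∑ d ∈ U.support, (t ^ (wt ω d - W)) • monomial d (coeff d U)

lemma bind_monomial (ω : Fin 3 → ℕ) (t : ℂ) (d : Fin 3 →₀ ℕ) (c : ℂ) :
    bind₁ (fun i => C (t ^ ω i) * X i : Fin 3 → MvPolynomial (Fin 3) ℂ) (monomial d c) =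
      (t ^ wt ω d) • monomial d c := by
  have h1 := Finsupp.prod_fintype d
    (fun i k => (C (t ^ ω i) * X i : MvPolynomial (Fin 3) ℂ) ^ k) (fun i => pow_zero _)
  unfold Finsupp.prod at h1
  rw [bind₁_monomial, h1]
  rw [monomial_eq, Finsupp.prod_fintype _ _ (fun i => pow_zero _), smul_eq_C_mul]
  simp only [mul_pow, Finset.prod_mul_distrib, Fin.prod_univ_three, wt, ← C_pow, ← C_mul]
  rw [pow_add, pow_add, pow_mul, pow_mul, pow_mul]
  simp only [C_mul]
  ring

lemma bind_eq (ω : Fin 3 → ℕ) (W : ℕ) (U : MvPolynomial (Fin 3) ℂ) (hW : ∀ d ∈ U.support, W ≤ wt ω d)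
    (t : ℂ) :
    bind₁ (fun i => C (t ^ ω i) * X i : Fin 3 → MvPolynomial (Fin 3) ℂ) U = (t ^ W) • Vt ω W U t := by
  conv_lhs => rw [U.as_sum]
  rw [map_sum, Vt, Finset.smul_sum]
  refine Finset.sum_congr rfl (fun d hd => ?_)
  rw [bind_monomial, smul_smul, ← pow_add, Nat.add_sub_cancel' (hW d hd)]

lemma pderiv_bindt (ω : Fin 3 → ℕ) (t : ℂ) (Q : MvPolynomial (Fin 3) ℂ) (j : Fin 3) :
    pderiv j (bind₁ (fun i => C (t ^ ω i) * X i : Fin 3 → MvPolynomial (Fin 3) ℂ) Q) =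
      C (t ^ ω j) * bind₁ (fun i => C (t ^ ω i) * X i : Fin 3 → MvPolynomial (Fin 3) ℂ)
        (pderiv j Q) := by
  rw [pderiv_bind]
  have : ∀ i : Fin 3, pderiv j (C (t ^ ω i) * X i : MvPolynomial (Fin 3) ℂ) =
      if i = j then C (t ^ ω j) else 0 := by
    intro i
    rw [pderiv_C_mul, pderiv_X]
    by_cases h : i = j
    · subst h; simp
    · simp [h, Pi.single_apply, Ne.symm h]
  simp only [this, mul_ite, mul_zero, Finset.sum_ite_eq', Finset.mem_univ, if_true]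
  ring

lemma eval_bindt (ω : Fin 3 → ℕ) (t : ℂ) (Q : MvPolynomial (Fin 3) ℂ) (x : Fin 3 → ℂ) :
    eval x (bind₁ (fun i => C (t ^ ω i) * X i : Fin 3 → MvPolynomial (Fin 3) ℂ) Q) =
      eval (fun i => t ^ ω i * x i) Q := by
  rw [eval, eval₂Hom_bind₁]
  simp

lemma scale_one (ω : Fin 3 → ℕ) (W : ℕ) (U : MvPolynomial (Fin 3) ℂ)
    (hW : ∀ d ∈ U.support, W ≤ wt ω d) (t : ℂ) (x : Fin 3 → ℂ) (i : Fin 3) :
    t ^ ω i * eval (fun i => t ^ ω i * x i) (pderiv i U) = t ^ W * eval x (pderiv i (Vt ω W U t)) := by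
  have h := congrArg (fun q => eval x (pderiv i q)) (bind_eq ω W U hW t)
  simp only [pderiv_bindt, eval_mul, eval_C, eval_bindt, Derivation.map_smul, smul_eval] at h
  exact h

lemma scale_two (ω : Fin 3 → ℕ) (W : ℕ) (U : MvPolynomial (Fin 3) ℂ)
    (hW : ∀ d ∈ U.support, W ≤ wt ω d) (t : ℂ) (x : Fin 3 → ℂ) (i j : Fin 3) :
    t ^ (ω i + ω j) * eval (fun i => t ^ ω i * x i) (pderiv i (pderiv j U)) =
      t ^ W * eval x (pderiv i (pderiv j (Vt ω W U t))) := by
  have h := congrArg (fun q => eval x (pderiv i (pderiv j q))) (bind_eq ω W U hW t)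
  simp only [pderiv_bindt, pderiv_C_mul, eval_mul, eval_C, eval_bindt, Derivation.map_smul,
    smul_eval] at h
  rw [← h, pow_add]
  ring

lemma cont_Vt (ω : Fin 3 → ℕ) (W : ℕ) (U : MvPolynomial (Fin 3) ℂ)
    (L : MvPolynomial (Fin 3) ℂ →ₗ[ℂ] ℂ) : Continuous fun t => L (Vt ω W U t) := by
  unfold Vt
  simp only [map_sum, map_smul, smul_eq_mul]
  fun_prop

/-- the initial form -/
def init (ω : Fin 3 → ℕ) (W : ℕ) (U : MvPolynomial (Fin 3) ℂ) : MvPolynomial (Fin 3) ℂ :=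
  ∑ d ∈ U.support with wt ω d = W, monomial d (coeff d U)

lemma Vt_zero (ω : Fin 3 → ℕ) (W : ℕ) (U : MvPolynomial (Fin 3) ℂ)
    (hW : ∀ d ∈ U.support, W ≤ wt ω d) : Vt ω W U 0 = init ω W U := by
  unfold Vt init
  rw [Finset.sum_filter]
  refine Finset.sum_congr rfl (fun d hd => ?_)
  by_cases h : wt ω d = W
  · rw [if_pos h, h, Nat.sub_self, pow_zero, one_smul]
  · rw [if_neg h, zero_pow (by have := hW d hd; omega), zero_smul]

lemma coeff_init (ω : Fin 3 → ℕ) (W : ℕ) (U : MvPolynomial (Fin 3) ℂ) (d : Fin 3 →₀ ℕ) :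
    coeff d (init ω W U) = if wt ω d = W then coeff d U else 0 := by
  classical
  unfold init
  rw [coeff_sum]
  simp only [coeff_monomial]
  rw [Finset.sum_ite_eq']
  by_cases h : wt ω d = W
  · rw [if_pos h]
    by_cases h2 : d ∈ U.support
    · rw [if_pos (by simp [h, mem_support_iff.mp h2])]
    · rw [if_neg (by simp [notMem_support_iff.mp h2]), notMem_support_iff.mp h2]
  · rw [if_neg h, if_neg (by simp [h])]

/-- the normalised operator in a null frame -/
def ENum (P u0 u1 u2 u00 u01 u02 u11 u12 u22 : ℂ) : ℂ :=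
  (u1 ^ 2 + 2 * u0 * u2) * (u11 + 2 * u02) +
    P * (u2 ^ 2 * u00 + u1 ^ 2 * u11 + u0 ^ 2 * u22 + 2 * u2 * u1 * u01 + 2 * u2 * u0 * u02 +
      2 * u1 * u0 * u12)

/-- the planar operator -/
def E2Num (P u0 u2 u00 u02 u22 : ℂ) : ℂ :=
  4 * u0 * u2 * u02 + P * (u2 ^ 2 * u00 + u0 ^ 2 * u22 + 2 * u0 * u2 * u02)

def EE (P : ℂ) (U : MvPolynomial (Fin 3) ℂ) (x : Fin 3 → ℂ) : ℂ :=
  ENum P (eval x (pderiv 0 U)) (eval x (pderiv 1 U)) (eval x (pderiv 2 U))
    (eval x (pderiv 0 (pderiv 0 U))) (eval x (pderiv 0 (pderiv 1 U)))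
    (eval x (pderiv 0 (pderiv 2 U))) (eval x (pderiv 1 (pderiv 1 U)))
    (eval x (pderiv 1 (pderiv 2 U))) (eval x (pderiv 2 (pderiv 2 U)))

def EE2 (P : ℂ) (U : MvPolynomial (Fin 3) ℂ) (x : Fin 3 → ℂ) : ℂ :=
  E2Num P (eval x (pderiv 0 U)) (eval x (pderiv 2 U))
    (eval x (pderiv 0 (pderiv 0 U))) (eval x (pderiv 0 (pderiv 2 U)))
    (eval x (pderiv 2 (pderiv 2 U)))

lemma cont_one (ω : Fin 3 → ℕ) (W : ℕ) (U : MvPolynomial (Fin 3) ℂ) (x : Fin 3 → ℂ) (i : Fin 3) :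
    Continuous fun t => eval x (pderiv i (Vt ω W U t)) :=
  cont_Vt ω W U ((aeval x).toLinearMap ∘ₗ (pderiv i).toLinearMap)

lemma cont_two (ω : Fin 3 → ℕ) (W : ℕ) (U : MvPolynomial (Fin 3) ℂ) (x : Fin 3 → ℂ) (i j : Fin 3) :
    Continuous fun t => eval x (pderiv i (pderiv j (Vt ω W U t))) :=
  cont_Vt ω W U ((aeval x).toLinearMap ∘ₗ (pderiv i).toLinearMap ∘ₗ (pderiv j).toLinearMap)

lemma eq_zero_of_cont {f : ℂ → ℂ} (hf : Continuous f) (h : ∀ t, t ≠ 0 → f t = 0) : f 0 = 0 := by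
  have h1 : f = fun _ => 0 := by
    apply Continuous.ext_on (dense_compl_singleton (0 : ℂ)) hf continuous_const
    intro t ht
    exact h t ht
  exact congrFun h1 0

lemma cont_ENum (P : ℂ) {u0 u1 u2 u00 u01 u02 u11 u12 u22 : ℂ → ℂ} (h0 : Continuous u0)
    (h1 : Continuous u1) (h2 : Continuous u2) (h00 : Continuous u00) (h01 : Continuous u01)
    (h02 : Continuous u02) (h11 : Continuous u11) (h12 : Continuous u12) (h22 : Continuous u22) :
    Continuous fun t => ENum P (u0 t) (u1 t) (u2 t) (u00 t) (u01 t) (u02 t) (u11 t) (u12 t)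
      (u22 t) := by
  unfold ENum
  fun_prop

lemma cont_G (P : ℂ) (s : ℕ) {u0 u1 u2 u00 u01 u02 u11 u12 u22 : ℂ → ℂ} (h0 : Continuous u0)
    (h1 : Continuous u1) (h2 : Continuous u2) (h00 : Continuous u00) (h01 : Continuous u01)
    (h02 : Continuous u02) (h11 : Continuous u11) (h12 : Continuous u12) (h22 : Continuous u22) :
    Continuous fun t => E2Num P (u0 t) (u2 t) (u00 t) (u02 t) (u22 t) +
      t ^ s * ((u1 t) ^ 2 * (2 * u02 t) + 2 * u0 t * u2 t * u11 t +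
        P * (2 * u2 t * u1 t * u01 t + 2 * u1 t * u0 t * u12 t)) +
      (t ^ s) ^ 2 * ((1 + P) * (u1 t) ^ 2 * u11 t) := by
  unfold E2Num
  fun_prop

/-- exact weights -/
lemma init_exact (P : ℂ) (U : MvPolynomial (Fin 3) ℂ) (W : ℕ)
    (hW : ∀ d ∈ U.support, W ≤ wt ![0, 1, 2] d) (hE : ∀ x, EE P U x = 0) (x : Fin 3 → ℂ) :
    EE P (init ![0, 1, 2] W U) x = 0 := by
  rw [← Vt_zero _ _ _ hW]
  have key : ∀ t : ℂ, t ≠ 0 → EE P (Vt ![0, 1, 2] W U t) x = 0 := by
    intro t ht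
    have h1 := scale_one ![0, 1, 2] W U hW t x
    have h2 := scale_two ![0, 1, 2] W U hW t x
    have e0 := h1 0
    have e1 := h1 1
    have e2 := h1 2
    have e00 := h2 0 0
    have e01 := h2 0 1
    have e02 := h2 0 2
    have e11 := h2 1 1
    have e12 := h2 1 2
    have e22 := h2 2 2
    have hx := hE (fun i => t ^ (![0, 1, 2] : Fin 3 → ℕ) i * x i)
    simp only [Matrix.cons_val_zero, Matrix.cons_val_one, Matrix.cons_val, pow_zero, one_mul,
      pow_one, add_zero, zero_add] at e0 e1 e2 e00 e01 e02 e11 e12 e22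
    have hz : (t ^ W) ^ 3 * EE P (Vt ![0, 1, 2] W U t) x = 0 := by
      have h3 : (t ^ W) ^ 3 * EE P (Vt ![0, 1, 2] W U t) x =
          t ^ 4 * EE P U (fun i => t ^ (![0, 1, 2] : Fin 3 → ℕ) i * x i) := by
        unfold EE
        have h4 : ∀ a v0 v1 v2 v00 v01 v02 v11 v12 v22 : ℂ,
            a ^ 3 * ENum P v0 v1 v2 v00 v01 v02 v11 v12 v22 =
            ENum P (a * v0) (a * v1) (a * v2) (a * v00) (a * v01) (a * v02) (a * v11) (a * v12)
              (a * v22) := by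
          intros; unfold ENum; ring
        rw [h4, ← e0, ← e1, ← e2, ← e00, ← e01, ← e02, ← e11, ← e12, ← e22]
        unfold ENum
        ring
      rw [h3, hx, mul_zero]
    exact (mul_eq_zero.mp hz).resolve_left (pow_ne_zero _ (pow_ne_zero _ ht))
  exact eq_zero_of_cont (cont_ENum P (cont_one _ W U x 0) (cont_one _ W U x 1)
    (cont_one _ W U x 2) (cont_two _ W U x 0 0) (cont_two _ W U x 0 1) (cont_two _ W U x 0 2)
    (cont_two _ W U x 1 1) (cont_two _ W U x 1 2) (cont_two _ W U x 2 2)) key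

/-- degenerate weights -/
lemma init_deg (P : ℂ) (U : MvPolynomial (Fin 3) ℂ) (a b W : ℕ) (hab : 0 < a + b)
    (hW : ∀ d ∈ U.support, W ≤ wt ![a, 0, b] d) (hE : ∀ x, EE P U x = 0) (x : Fin 3 → ℂ) :
    EE2 P (init ![a, 0, b] W U) x = 0 := by
  rw [← Vt_zero _ _ _ hW]
  set G : ℂ → ℂ := fun t =>
    EE2 P (Vt ![a, 0, b] W U t) x +
    t ^ (a + b) * ((eval x (pderiv 1 (Vt ![a, 0, b] W U t))) ^ 2 *
        (2 * eval x (pderiv 0 (pderiv 2 (Vt ![a, 0, b] W U t)))) +
      2 * eval x (pderiv 0 (Vt ![a, 0, b] W U t)) * eval x (pderiv 2 (Vt ![a, 0, b] W U t)) *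
        eval x (pderiv 1 (pderiv 1 (Vt ![a, 0, b] W U t))) +
      P * (2 * eval x (pderiv 2 (Vt ![a, 0, b] W U t)) * eval x (pderiv 1 (Vt ![a, 0, b] W U t)) *
          eval x (pderiv 0 (pderiv 1 (Vt ![a, 0, b] W U t))) +
        2 * eval x (pderiv 1 (Vt ![a, 0, b] W U t)) * eval x (pderiv 0 (Vt ![a, 0, b] W U t)) *
          eval x (pderiv 1 (pderiv 2 (Vt ![a, 0, b] W U t))))) +
    (t ^ (a + b)) ^ 2 * ((1 + P) * (eval x (pderiv 1 (Vt ![a, 0, b] W U t))) ^ 2 *
      eval x (pderiv 1 (pderiv 1 (Vt ![a, 0, b] W U t)))) with hG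
  have key : ∀ t : ℂ, t ≠ 0 → G t = 0 := by
    intro t ht
    have h1 := scale_one ![a, 0, b] W U hW t x
    have h2 := scale_two ![a, 0, b] W U hW t x
    have e0 := h1 0
    have e1 := h1 1
    have e2 := h1 2
    have e00 := h2 0 0
    have e01 := h2 0 1
    have e02 := h2 0 2
    have e11 := h2 1 1
    have e12 := h2 1 2
    have e22 := h2 2 2
    have hx := hE (fun i => t ^ (![a, 0, b] : Fin 3 → ℕ) i * x i)
    simp only [Matrix.cons_val_zero, Matrix.cons_val_one, Matrix.cons_val, pow_zero, one_mul,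
      add_zero, zero_add] at e0 e1 e2 e00 e01 e02 e11 e12 e22
    have hz : (t ^ W) ^ 3 * G t = 0 := by
      have h3 : (t ^ W) ^ 3 * G t =
          (t ^ (a + b)) ^ 2 * EE P U (fun i => t ^ (![a, 0, b] : Fin 3 → ℕ) i * x i) := by
        rw [hG]
        unfold EE EE2
        have h4 : ∀ A s v0 v1 v2 v00 v01 v02 v11 v12 v22 : ℂ,
            A ^ 3 * (E2Num P v0 v2 v00 v02 v22 + s * (v1 ^ 2 * (2 * v02) + 2 * v0 * v2 * v11 +
              P * (2 * v2 * v1 * v01 + 2 * v1 * v0 * v12)) + s ^ 2 * ((1 + P) * v1 ^ 2 * v11)) =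
            E2Num P (A * v0) (A * v2) (A * v00) (A * v02) (A * v22) +
            s * ((A * v1) ^ 2 * (2 * (A * v02)) + 2 * (A * v0) * (A * v2) * (A * v11) +
              P * (2 * (A * v2) * (A * v1) * (A * v01) + 2 * (A * v1) * (A * v0) * (A * v12))) +
            s ^ 2 * ((1 + P) * (A * v1) ^ 2 * (A * v11)) := by
          intros; unfold E2Num; ring
        simp only []
        rw [h4, ← e0, ← e1, ← e2, ← e00, ← e01, ← e02, ← e11, ← e12, ← e22]
        unfold ENum E2Num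
        ring
      rw [h3, hx, mul_zero]
    exact (mul_eq_zero.mp hz).resolve_left (pow_ne_zero _ (pow_ne_zero _ ht))
  have hcont : Continuous G :=
    cont_G P (a + b) (cont_one _ W U x 0) (cont_one _ W U x 1)
      (cont_one _ W U x 2) (cont_two _ W U x 0 0) (cont_two _ W U x 0 1) (cont_two _ W U x 0 2)
      (cont_two _ W U x 1 1) (cont_two _ W U x 1 2) (cont_two _ W U x 2 2)
  have h0 := eq_zero_of_cont hcont key
  rw [hG] at h0
  simp only [zero_pow hab.ne', zero_mul, ne_eq, OfNat.ofNat_ne_zero, not_false_eq_true, zero_pow,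
    add_zero] at h0
  exact h0

end

end Pool.Agent.Helper43.PLap
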