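import Mathlib

set_option autoImplicit false

open Polynomial

namespace Pool.Agent.Helper43.PLap

noncomputable section

/-- `4 s^2 + 2 s` -/
def AA : ℂ[X] := C 4 * X ^ 2 + C 2 * X

def bb (a w : ℂ) : ℂ[X] := C a - C (2 * w) * X

def nn (a w : ℂ) (f : ℂ[X]) : ℂ[X] :=
  C (w ^ 2) * f ^ 2 + C 2 * bb a w * f * derivative f + AA * derivative f ^ 2

def psi (a w : ℂ) (f : ℂ[X]) : ℂ[X] := bb a w * f + AA * derivative f

def DD (a w : ℂ) (f : ℂ[X]) : ℂ[X] :=
  C (w * (w - 1)) * f + (C (2 * (a + 1)) - C (2 * (2 * w - 3)) * X) * derivative f +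
    AA * derivative (derivative f)

def kap (a w : ℂ) (f : ℂ[X]) : ℂ[X] :=
  C (2 * w * (w - 1)) * f + (C (2 * a) - C (4 * (w - 1)) * X) * derivative f

/-- the main algebraic identity -/
lemma psi_sq (a w : ℂ) (f : ℂ[X]) :
    psi a w f ^ 2 = AA * nn a w f + (C (a ^ 2) - C (2 * w * (2 * a + w)) * X) * f ^ 2 := by
  unfold psi nn bb AA
  simp only [C_mul, C_add, C_pow]
  have : (C 2 : ℂ[X]) = 2 := rfl
  have h4 : (C 4 : ℂ[X]) = 4 := rfl
  rw [this, h4]
  ring

lemma derivative_tau_pow (s : ℂ) (j : ℕ) :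
    derivative ((X - C s) ^ (j + 1)) = C ((j : ℂ) + 1) * (X - C s) ^ j := by
  rw [derivative_X_sub_C_pow]
  simp

/-- case of a multiple root at a regular point -/
lemma case_reg (a w P : ℂ) (hP : 1 + P ≠ 0) (s : ℂ) (hA : eval s AA ≠ 0) (j : ℕ) (g : ℂ[X])
    (hg : eval s g ≠ 0)
    (hE : nn a w ((X - C s) ^ (j + 2) * g) * DD a w ((X - C s) ^ (j + 2) * g) +
      C (P / 2) * (nn a w ((X - C s) ^ (j + 2) * g) * kap a w ((X - C s) ^ (j + 2) * g) +
        derivative (nn a w ((X - C s) ^ (j + 2) * g)) * psi a w ((X - C s) ^ (j + 2) * g)) = 0) :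
    False := by
  set τ : ℂ[X] := X - C s with hτ
  set f := τ ^ (j + 2) * g with hf
  set g1 : ℂ[X] := C ((j : ℂ) + 2) * g + τ * derivative g with hg1
  set g2 : ℂ[X] := C ((j : ℂ) + 1) * g1 + τ * derivative g1 with hg2
  have hdτ : ∀ i : ℕ, derivative (τ ^ (i + 1)) = C ((i : ℂ) + 1) * τ ^ i :=
    fun i => derivative_tau_pow s i
  have h1 : derivative f = τ ^ (j + 1) * g1 := by
    rw [hf, derivative_mul, show j + 2 = (j + 1) + 1 from rfl, hdτ, hg1]
    push_cast
    rw [show (j : ℂ) + 1 + 1 = j + 2 by ring]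
    ring
  have h2 : derivative (derivative f) = τ ^ j * g2 := by
    rw [h1, derivative_mul, hdτ, hg2]
    ring
  set n1 : ℂ[X] := C (w ^ 2) * τ ^ 2 * g ^ 2 + C 2 * bb a w * τ * g * g1 + AA * g1 ^ 2 with hn1
  have h3 : nn a w f = τ ^ (2 * j + 2) * n1 := by
    unfold nn
    rw [h1, hf, hn1]
    ring
  have h4 : derivative (nn a w f) = τ ^ (2 * j + 1) *
      (C (2 * (j : ℂ) + 2) * n1 + τ * derivative n1) := by
    rw [h3, derivative_mul, show 2 * j + 2 = (2 * j + 1) + 1 from rfl, hdτ]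
    push_cast
    rw [show 2 * (j : ℂ) + 1 + 1 = 2 * j + 2 by ring]
    ring
  set D1 : ℂ[X] := C (w * (w - 1)) * τ ^ 2 * g +
    (C (2 * (a + 1)) - C (2 * (2 * w - 3)) * X) * τ * g1 + AA * g2 with hD1
  have h5 : DD a w f = τ ^ j * D1 := by
    unfold DD
    rw [h2, h1, hf, hD1]
    ring
  set k1 : ℂ[X] := C (2 * w * (w - 1)) * τ * g + (C (2 * a) - C (4 * (w - 1)) * X) * g1 with hk1
  have h6 : kap a w f = τ ^ (j + 1) * k1 := by
    unfold kap
    rw [h1, hf, hk1]
    ring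
  set p1 : ℂ[X] := bb a w * τ * g + AA * g1 with hp1
  have h7 : psi a w f = τ ^ (j + 1) * p1 := by
    unfold psi
    rw [h1, hf, hp1]
    ring
  rw [h4, h3, h5, h6, h7] at hE
  have h8 : τ ^ (3 * j + 2) * (n1 * D1 + C (P / 2) * (τ * n1 * k1 +
      (C (2 * (j : ℂ) + 2) * n1 + τ * derivative n1) * p1)) = 0 := by
    rw [← hE]; ring
  have hτ0 : τ ≠ 0 := X_sub_C_ne_zero s
  have h9 := (mul_eq_zero.mp h8).resolve_left (pow_ne_zero _ hτ0)
  have h10 := congrArg (eval s) h9
  have e0 : eval s τ = 0 := by simp [hτ]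
  have eg1 : eval s g1 = ((j : ℂ) + 2) * eval s g := by simp [hg1, e0]
  have eg2 : eval s g2 = ((j : ℂ) + 1) * eval s g1 := by simp [hg2, e0]
  have en1 : eval s n1 = eval s AA * eval s g1 ^ 2 := by simp [hn1, e0]
  have eD1 : eval s D1 = eval s AA * eval s g2 := by simp [hD1, e0]
  have ep1 : eval s p1 = eval s AA * eval s g1 := by simp [hp1, e0]
  simp only [eval_add, eval_mul, eval_C, e0, zero_mul, zero_add, add_zero, eval_zero] at h10
  rw [en1, eD1, ep1, eg2] at h10
  have h11 : (eval s AA) ^ 2 * (eval s g1) ^ 3 * ((j : ℂ) + 1) * (1 + P) = 0 := by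
    rw [← h10]; ring
  have hj1 : (j : ℂ) + 1 ≠ 0 := by exact_mod_cast Nat.succ_ne_zero j
  have hj2 : (j : ℂ) + 2 ≠ 0 := by exact_mod_cast Nat.succ_ne_zero (j + 1)
  have hg1' : eval s g1 ≠ 0 := by rw [eg1]; exact mul_ne_zero hj2 hg
  exact (mul_ne_zero (mul_ne_zero (mul_ne_zero (pow_ne_zero _ hA) (pow_ne_zero _ hg1')) hj1) hP) h11

/-- case of a root at a zero of `AA` -/
lemma case_sing (a w P : ℂ) (s : ℂ) (A1 : ℂ[X]) (hA : AA = (X - C s) * A1) (j : ℕ) (g : ℂ[X])
    (hg : eval s g ≠ 0)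
    (hE : nn a w ((X - C s) ^ (j + 1) * g) * DD a w ((X - C s) ^ (j + 1) * g) +
      C (P / 2) * (nn a w ((X - C s) ^ (j + 1) * g) * kap a w ((X - C s) ^ (j + 1) * g) +
        derivative (nn a w ((X - C s) ^ (j + 1) * g)) * psi a w ((X - C s) ^ (j + 1) * g)) = 0) :
    (2 * eval s (bb a w) + eval s A1 * (j + 1)) *
      ((j + 1) * ((2 * (a + 1) - 2 * (2 * w - 3) * s) + eval s A1 * j) +
        (P / 2) * ((2 * a - 4 * (w - 1) * s) * (j + 1) +
          (2 * j + 1) * (eval s (bb a w) + eval s A1 * (j + 1)))) = 0 := by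
  set τ : ℂ[X] := X - C s with hτ
  set f := τ ^ (j + 1) * g with hf
  set g1 : ℂ[X] := C ((j : ℂ) + 1) * g + τ * derivative g with hg1
  set g2 : ℂ[X] := C (j : ℂ) * g1 + τ * derivative g1 with hg2
  have hdτ : ∀ i : ℕ, derivative (τ ^ (i + 1)) = C ((i : ℂ) + 1) * τ ^ i :=
    fun i => derivative_tau_pow s i
  have hdτ' : ∀ i : ℕ, τ * derivative (τ ^ i) = C (i : ℂ) * τ ^ i := by
    intro i
    rcases i with _ | i
    · simp
    · rw [hdτ]; push_cast; ring
  have h1 : derivative f = τ ^ j * g1 := by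
    rw [hf, derivative_mul, hdτ, hg1]
    ring
  have h2 : τ * derivative (derivative f) = τ ^ j * g2 := by
    rw [h1, derivative_mul, mul_add, ← mul_assoc, hdτ', hg2]
    ring
  set n1 : ℂ[X] := C (w ^ 2) * τ * g ^ 2 + C 2 * bb a w * g * g1 + A1 * g1 ^ 2 with hn1
  have h3 : nn a w f = τ ^ (2 * j + 1) * n1 := by
    unfold nn
    rw [h1, hf, hn1, hA]
    ring
  have h4 : derivative (nn a w f) = τ ^ (2 * j) *
      (C (2 * (j : ℂ) + 1) * n1 + τ * derivative n1) := by
    rw [h3, derivative_mul, hdτ]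
    push_cast
    ring
  set D1 : ℂ[X] := C (w * (w - 1)) * τ * g +
    (C (2 * (a + 1)) - C (2 * (2 * w - 3)) * X) * g1 + A1 * g2 with hD1
  have h5 : DD a w f = τ ^ j * D1 := by
    unfold DD
    have : AA * derivative (derivative f) = A1 * (τ * derivative (derivative f)) := by
      rw [hA]; ring
    rw [this, h2, h1, hf, hD1]
    ring
  set k1 : ℂ[X] := C (2 * w * (w - 1)) * τ * g + (C (2 * a) - C (4 * (w - 1)) * X) * g1 with hk1
  have h6 : kap a w f = τ ^ j * k1 := by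
    unfold kap
    rw [h1, hf, hk1]
    ring
  set p1 : ℂ[X] := bb a w * g + A1 * g1 with hp1
  have h7 : psi a w f = τ ^ (j + 1) * p1 := by
    unfold psi
    rw [h1, hf, hp1, hA]
    ring
  rw [h4, h3, h5, h6, h7] at hE
  have h8 : τ ^ (3 * j + 1) * (n1 * D1 + C (P / 2) * (n1 * k1 +
      (C (2 * (j : ℂ) + 1) * n1 + τ * derivative n1) * p1)) = 0 := by
    rw [← hE]; ring
  have hτ0 : τ ≠ 0 := X_sub_C_ne_zero s
  have h9 := (mul_eq_zero.mp h8).resolve_left (pow_ne_zero _ hτ0)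
  have h10 := congrArg (eval s) h9
  have e0 : eval s τ = 0 := by simp [hτ]
  have eg1 : eval s g1 = ((j : ℂ) + 1) * eval s g := by simp [hg1, e0]
  have eg2 : eval s g2 = (j : ℂ) * eval s g1 := by simp [hg2, e0]
  have en1 : eval s n1 = 2 * eval s (bb a w) * eval s g * eval s g1 +
      eval s A1 * eval s g1 ^ 2 := by simp [hn1, e0]
  have eD1 : eval s D1 = (2 * (a + 1) - 2 * (2 * w - 3) * s) * eval s g1 +
      eval s A1 * eval s g2 := by simp [hD1, e0]
  have ek1 : eval s k1 = (2 * a - 4 * (w - 1) * s) * eval s g1 := by simp [hk1, e0]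
  have ep1 : eval s p1 = eval s (bb a w) * eval s g + eval s A1 * eval s g1 := by simp [hp1]
  simp only [eval_add, eval_mul, eval_C, e0, zero_mul, add_zero, eval_zero] at h10
  rw [en1, eD1, ep1, ek1, eg2, eg1] at h10
  have hj1 : (j : ℂ) + 1 ≠ 0 := by exact_mod_cast Nat.succ_ne_zero j
  have h11 : ((j : ℂ) + 1) * (eval s g) ^ 3 *
     ((2 * eval s (bb a w) + eval s A1 * (j + 1)) *
      ((j + 1) * ((2 * (a + 1) - 2 * (2 * w - 3) * s) + eval s A1 * j) +
        (P / 2) * ((2 * a - 4 * (w - 1) * s) * (j + 1) +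
          (2 * j + 1) * (eval s (bb a w) + eval s A1 * (j + 1))))) = 0 := by
    rw [← h10]; ring
  exact (mul_eq_zero.mp h11).resolve_left (mul_ne_zero hj1 (pow_ne_zero _ hg))

/-- at a root of `nn` the polynomial `f` does not vanish -/
lemma root_ne (a w : ℕ) (P : ℝ) (hP : -1 < P) (f : ℂ[X]) (hf : f ≠ 0)
    (hdeg : 2 * f.natDegree ≤ w)
    (hE : nn a w f * DD a w f + C ((P : ℂ) / 2) * (nn a w f * kap a w f +
        derivative (nn a w f) * psi a w f) = 0) (s : ℂ) (hs : eval s (nn a w f) = 0) :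
    eval s f ≠ 0 := by
  intro hfs
  obtain ⟨g, hg, hgd⟩ := exists_eq_pow_rootMultiplicity_mul_and_not_dvd f hf s
  have hgs : eval s g ≠ 0 := fun h => hgd (dvd_iff_isRoot.mpr h)
  have hmul : 0 < rootMultiplicity s f := (rootMultiplicity_pos hf).mpr hfs
  have hmle : rootMultiplicity s f ≤ f.natDegree := by
    have h1 := card_roots' f
    have h2 := Multiset.count_le_card s f.roots
    rw [count_roots] at h2
    omega
  have hnv : eval s AA * eval s (derivative f) ^ 2 = 0 := by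
    have : eval s (nn a w f) = eval s AA * eval s (derivative f) ^ 2 := by
      simp [nn, hfs]
    rw [← this]; exact hs
  by_cases hA : eval s AA = 0
  · have hA' : s = 0 ∨ s = -(1 / 2) := by
      have h1 : s * (2 * s + 1) = 0 := by
        have h2 : eval s AA = 2 * (s * (2 * s + 1)) := by simp [AA]; ring
        rw [h2] at hA
        exact (mul_eq_zero.mp hA).resolve_left two_ne_zero
      rcases mul_eq_zero.mp h1 with h | h
      · left; exact h
      · right; linear_combination h / 2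
    obtain ⟨j, hj⟩ : ∃ j, rootMultiplicity s f = j + 1 := ⟨_, (Nat.succ_pred_eq_of_pos hmul).symm⟩
    rw [hj] at hg hmle
    have he : (2 * ((j : ℝ) + 1)) ≤ w := by exact_mod_cast (show 2 * (j + 1) ≤ w by omega)
    have ha0 : (0 : ℝ) ≤ a := Nat.cast_nonneg a
    have hj0 : (0 : ℝ) ≤ j := Nat.cast_nonneg j
    rw [hg] at hE
    rcases hA' with h0 | h0
    · subst h0
      have h1 := case_sing a w P 0 (C 4 * X + C 2) (by simp [AA]; ring) j g hgs hE
      simp only [bb, eval_add, eval_sub, eval_mul, eval_C, eval_X] at h1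
      have h2 : (((2 * (a : ℝ) + 2 * (j + 1)) * ((j + 1) * (2 * (a + 1) + 2 * j) +
        (P / 2) * (2 * a * (j + 1) + (2 * j + 1) * (a + 2 * (j + 1)))) : ℝ) : ℂ) = 0 := by
        push_cast
        linear_combination h1
      rw [Complex.ofReal_eq_zero] at h2
      have h3 : 0 < 2 * (a : ℝ) + 2 * (j + 1) := by positivity
      have h4 : 0 < ((j : ℝ) + 1) * (2 * (a + 1) + 2 * j) +
        (P / 2) * (2 * a * (j + 1) + (2 * j + 1) * (a + 2 * (j + 1))) := by
        have h5 : 0 < 2 * (a : ℝ) * (j + 1) + (2 * j + 1) * (a + 2 * (j + 1)) := by positivity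
        nlinarith [mul_pos (show 0 < P + 1 by linarith) h5, mul_nonneg ha0 hj0, mul_nonneg hj0 hj0]
      exact (mul_pos h3 h4).ne' h2
    · subst h0
      have h1 := case_sing a w P (-(1 / 2)) (C 4 * X) (by
        have h12 : (C (-(1 / 2)) : ℂ[X]) * C 4 = -C 2 := by rw [← C_mul, ← C_neg]; norm_num
        unfold AA
        linear_combination X * h12) j g hgs hE
      simp only [bb, eval_sub, eval_mul, eval_C, eval_X] at h1
      have h2 : (((2 * ((a : ℝ) + w) - 2 * (j + 1)) * ((j + 1) * ((2 * (a + 1) + (2 * w - 3)) - 2 * j) +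
        (P / 2) * ((2 * a + 2 * (w - 1)) * (j + 1) + (2 * j + 1) * (a + w - 2 * (j + 1)))) : ℝ) : ℂ)
          = 0 := by
        push_cast
        linear_combination h1
      rw [Complex.ofReal_eq_zero] at h2
      have h3 : 0 < 2 * ((a : ℝ) + w) - 2 * (j + 1) := by linarith
      have h4 : 0 < ((j : ℝ) + 1) * ((2 * (a + 1) + (2 * w - 3)) - 2 * j) +
        (P / 2) * ((2 * a + 2 * (w - 1)) * (j + 1) + (2 * j + 1) * (a + w - 2 * (j + 1))) := by
        obtain ⟨d, hd⟩ : ∃ d : ℝ, d = (w : ℝ) - 2 * (j + 1) := ⟨_, rfl⟩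
        have hd0 : 0 ≤ d := by linarith
        have hw : (w : ℝ) = d + 2 * (j + 1) := by linarith
        rw [hw]
        have h5 : 0 < (2 * (a : ℝ) + 2 * (d + 2 * (j + 1) - 1)) * (j + 1) +
            (2 * j + 1) * (a + (d + 2 * (j + 1)) - 2 * (j + 1)) := by
          have : 0 ≤ (2 * (j : ℝ) + 1) * (a + (d + 2 * (j + 1)) - 2 * (j + 1)) := by
            apply mul_nonneg (by positivity); linarith
          have h6 : 0 < (2 * (a : ℝ) + 2 * (d + 2 * (j + 1) - 1)) * (j + 1) := by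
            apply mul_pos _ (by positivity); linarith
          linarith
        nlinarith [mul_pos (show 0 < P + 1 by linarith) h5, mul_nonneg ha0 hj0,
          mul_nonneg hj0 hj0, mul_nonneg hd0 hj0]
      exact (mul_pos h3 h4).ne' h2
  · have hd : eval s (derivative f) = 0 := by
      have := (mul_eq_zero.mp hnv).resolve_left hA
      exact pow_eq_zero_iff (two_ne_zero) |>.mp this
    have h2 : 1 < rootMultiplicity s f := (one_lt_rootMultiplicity_iff_isRoot hf).mpr ⟨hfs, hd⟩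
    obtain ⟨j, hj⟩ : ∃ j, rootMultiplicity s f = j + 2 := ⟨rootMultiplicity s f - 2, by omega⟩
    rw [hj] at hg
    rw [hg] at hE
    refine case_reg a w P ?_ s hA j g hgs hE
    have : ((1 + P : ℝ) : ℂ) ≠ 0 := Complex.ofReal_ne_zero.mpr (by linarith)
    simpa using this

/-- at a root of `nn` the polynomial `psi` vanishes -/
lemma psi_root (a w P : ℂ) (hP : P ≠ 0) (f : ℂ[X]) (hn : nn a w f ≠ 0)
    (hE : nn a w f * DD a w f + C (P / 2) * (nn a w f * kap a w f +
        derivative (nn a w f) * psi a w f) = 0) (s : ℂ) (hs : eval s (nn a w f) = 0) :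
    eval s (psi a w f) = 0 := by
  obtain ⟨n1, hn1, hnd⟩ := exists_eq_pow_rootMultiplicity_mul_and_not_dvd (nn a w f) hn s
  have hns : eval s n1 ≠ 0 := fun h => hnd (dvd_iff_isRoot.mpr h)
  have hmul : 0 < rootMultiplicity s (nn a w f) := (rootMultiplicity_pos hn).mpr hs
  obtain ⟨j, hj⟩ : ∃ j, rootMultiplicity s (nn a w f) = j + 1 :=
    ⟨_, (Nat.succ_pred_eq_of_pos hmul).symm⟩
  rw [hj] at hn1
  have h1 : derivative (nn a w f) = (X - C s) ^ j * (C ((j : ℂ) + 1) * n1 +
      (X - C s) * derivative n1) := by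
    rw [hn1, derivative_mul, derivative_tau_pow]
    ring
  rw [h1] at hE
  have h2 : (X - C s) ^ j * ((X - C s) * n1 * (DD a w f + C (P / 2) * kap a w f) +
      C (P / 2) * (C ((j : ℂ) + 1) * n1 + (X - C s) * derivative n1) * psi a w f) = 0 := by
    rw [← hE]
    conv_rhs => rw [hn1]
    ring
  have h3 := (mul_eq_zero.mp h2).resolve_left (pow_ne_zero _ (X_sub_C_ne_zero s))
  have h4 := congrArg (eval s) h3
  simp only [eval_add, eval_mul, eval_sub, eval_X, eval_C, sub_self, zero_mul, zero_add, add_zero,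
    eval_zero] at h4
  have hj1 : (j : ℂ) + 1 ≠ 0 := by exact_mod_cast Nat.succ_ne_zero j
  have h5 : (P / 2) * (((j : ℂ) + 1) * eval s n1) ≠ 0 :=
    mul_ne_zero (div_ne_zero hP two_ne_zero) (mul_ne_zero hj1 hns)
  exact (mul_eq_zero.mp h4).resolve_left h5

end

end Pool.Agent.Helper43.PLap
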