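import Mathlib
import Pool.Agent.Helper43.PLap.TThree

set_option autoImplicit false

open Polynomial

namespace Pool.Agent.Helper43.PLap

noncomputable section

/-- `p` has degree at most `d` and `d`-th coefficient `c` -/
def Top (p : ℂ[X]) (d : ℕ) (c : ℂ) : Prop := p.natDegree ≤ d ∧ p.coeff d = c

lemma Top.mul {p q : ℂ[X]} {d e : ℕ} {c b : ℂ} (hp : Top p d c) (hq : Top q e b) :
    Top (p * q) (d + e) (c * b) := by
  refine ⟨natDegree_mul_le.trans (Nat.add_le_add hp.1 hq.1), ?_⟩
  rw [coeff_mul_add_eq_of_natDegree_le hp.1 hq.1, hp.2, hq.2]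

lemma Top.add {p q : ℂ[X]} {d : ℕ} {c b : ℂ} (hp : Top p d c) (hq : Top q d b) :
    Top (p + q) d (c + b) :=
  ⟨natDegree_add_le_of_degree_le hp.1 hq.1, by rw [coeff_add, hp.2, hq.2]⟩

lemma Top.constMul {p : ℂ[X]} {d : ℕ} {c : ℂ} (hp : Top p d c) (b : ℂ) :
    Top (C b * p) d (b * c) :=
  ⟨(natDegree_C_mul_le b p).trans hp.1, by rw [coeff_C_mul, hp.2]⟩

lemma Top.deriv {p : ℂ[X]} {d : ℕ} {c : ℂ} (hp : Top p d c) : Top (derivative p) d 0 := by
  refine ⟨(natDegree_derivative_le p).trans ((Nat.sub_le _ _).trans hp.1), ?_⟩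
  rw [coeff_derivative, coeff_eq_zero_of_natDegree_lt (lt_of_le_of_lt hp.1 (Nat.lt_succ_self d)),
    zero_mul]

lemma Top.xderiv {p : ℂ[X]} {d : ℕ} {c : ℂ} (hp : Top p d c) :
    Top (X * derivative p) d (d * c) := by
  rcases d with _ | d
  · have h0 : p.natDegree = 0 := Nat.le_zero.mp hp.1
    rw [derivative_of_natDegree_zero h0]
    simp [Top]
  · refine ⟨?_, ?_⟩
    · refine natDegree_mul_le.trans ?_
      have h1 := natDegree_derivative_le p
      have h2 : (X : ℂ[X]).natDegree ≤ 1 := natDegree_X_le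
      have := hp.1
      omega
    · rw [coeff_X_mul, coeff_derivative, hp.2]
      push_cast
      ring

lemma Top.unique {p : ℂ[X]} {d : ℕ} {c b : ℂ} (h : Top p d c) (h' : Top p d b) : c = b := by
  rw [← h.2, ← h'.2]

lemma Top.congr {p q : ℂ[X]} {d : ℕ} {c b : ℂ} (h : Top p d c) (hpq : p = q) (hcb : c = b) :
    Top q d b := by rw [← hpq, ← hcb]; exact h

lemma top_nn (a w : ℂ) (f : ℂ[X]) (k : ℕ) (c : ℂ) (hf : Top f k c) :
    Top (nn a w f) (2 * k) ((w - 2 * k) ^ 2 * c ^ 2) := by
  have hG := hf.xderiv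
  have hd := hf.deriv
  have h1 := ((((hf.mul hf).constMul (w ^ 2)).add ((hf.mul hd).constMul (2 * a))).add
    ((hf.mul hG).constMul (-4 * w))).add (((hG.mul hG).constMul 4).add ((hd.mul hG).constMul 2))
  rw [show k + k = 2 * k by ring] at h1
  refine h1.congr ?_ (by ring)
  unfold nn bb AA
  simp only [C_mul, C_neg, map_ofNat]
  ring

lemma top_eq (a w P : ℂ) (f : ℂ[X]) (k : ℕ) (c : ℂ) (hf : Top f k c)
    (hE : nn a w f * DD a w f + C (P / 2) * (nn a w f * kap a w f +
        derivative (nn a w f) * psi a w f) = 0) :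
    (w - 2 * k) ^ 3 * (w - 2 * k - 1) * (1 + P) * c ^ 3 = 0 := by
  have hG := hf.xderiv
  have hd := hf.deriv
  have hn := top_nn a w f k c hf
  have hxn := hn.xderiv
  have hdn := hn.deriv
  -- second derivatives
  have hH : Top (X * derivative (X * derivative f)) k (k * (k * c)) := hG.xderiv
  have hxd : Top (X * derivative (derivative f)) k 0 := by
    have := hd.xderiv
    rwa [mul_zero] at this
  have hD : Top (DD a w f) k ((w - 2 * k) * (w - 2 * k - 1) * c) := by
    have h1 := (((hf.constMul (w * (w - 1))).add (hd.constMul (2 * (a + 1)))).add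
      (hG.constMul (-2 * (2 * w - 3)))).add (((hH.constMul 4).add (hG.constMul (-4))).add
        (hxd.constMul 2))
    refine h1.congr ?_ (by ring)
    unfold DD AA
    rw [derivative_mul, derivative_X]
    simp only [C_mul, C_neg, C_sub, C_add, map_ofNat]
    ring
  have hk : Top (kap a w f) k (2 * (w - 1) * (w - 2 * k) * c) := by
    have h1 := ((hf.constMul (2 * w * (w - 1))).add (hd.constMul (2 * a))).add
      (hG.constMul (-4 * (w - 1)))
    refine h1.congr ?_ (by ring)
    unfold kap
    simp only [C_mul, C_neg, C_sub, map_ofNat]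
    ring
  have hpa : Top (C (-2 * w) * f + C 4 * (X * derivative f)) k (-2 * (w - 2 * k) * c) :=
    ((hf.constMul (-2 * w)).add (hG.constMul 4)).congr rfl (by ring)
  have hpb : Top (C a * f + C 2 * (X * derivative f)) k (a * c + 2 * (k * c)) :=
    (hf.constMul a).add (hG.constMul 2)
  have hfin := (hn.mul hD).add ((((hn.mul hk).add ((hxn.mul hpa).add (hdn.mul hpb)))).constMul (P / 2))
  have hzero : Top (0 : ℂ[X]) (2 * k + k) 0 := by simp [Top]
  have heq := hfin.congr (q := 0) (by
    rw [← hE]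
    unfold psi bb AA
    simp only [C_mul, C_neg, map_ofNat]
    ring) rfl
  have := heq.unique hzero
  rw [← this]
  push_cast
  ring

/-- no weight vector solutions with `w ≥ 2` -/
theorem tThree (a w : ℕ) (hw : 2 ≤ w) (P : ℝ) (hP : -1 < P) (hP0 : P ≠ 0) (f : ℂ[X]) (hf : f ≠ 0)
    (hdeg : 2 * f.natDegree ≤ w)
    (hE : nn a w f * DD a w f + C ((P : ℂ) / 2) * (nn a w f * kap a w f +
        derivative (nn a w f) * psi a w f) = 0) : False := by
  have hPc : (P : ℂ) ≠ 0 := Complex.ofReal_ne_zero.mpr hP0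
  have hP1 : (1 + (P : ℂ)) ≠ 0 := by
    have : ((1 + P : ℝ) : ℂ) ≠ 0 := Complex.ofReal_ne_zero.mpr (by linarith)
    simpa using this
  set k := f.natDegree with hk
  have hlc : f.coeff k ≠ 0 := by
    rw [hk]; exact leadingCoeff_ne_zero.mpr hf
  have hTop : Top f k (f.coeff k) := ⟨le_rfl, rfl⟩
  have htop := top_eq a w P f k _ hTop hE
  have hwk : w = 2 * k ∨ w = 2 * k + 1 := by
    rcases mul_eq_zero.mp htop with h | h
    · rcases mul_eq_zero.mp h with h | h
      · rcases mul_eq_zero.mp h with h | h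
        · left
          have h2 : (w : ℂ) - 2 * k = 0 := pow_eq_zero_iff (by norm_num) |>.mp h
          have h3 : (w : ℂ) = ((2 * k : ℕ) : ℂ) := by push_cast; linear_combination h2
          exact_mod_cast h3
        · right
          have h3 : (w : ℂ) = ((2 * k + 1 : ℕ) : ℂ) := by push_cast; linear_combination h
          exact_mod_cast h3
      · exact absurd h hP1
    · exact absurd h (pow_ne_zero _ hlc)
  -- the constant and the linear polynomial
  have hw0 : (w : ℂ) ≠ 0 := by exact_mod_cast (show w ≠ 0 by omega)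
  have hlin : (2 * (w : ℂ) * (2 * a + w)) ≠ 0 := by
    have : (2 * w * (2 * a + w) : ℕ) ≠ 0 := by positivity
    exact_mod_cast this
  set L : ℂ := 2 * (w : ℂ) * (2 * a + w) with hL
  set s0 : ℂ := (a : ℂ) ^ 2 / L with hs0
  have hell : (C ((a : ℂ) ^ 2) - C L * X : ℂ[X]) = C (-L) * (X - C s0) := by
    rw [mul_sub, ← C_mul, show -L * s0 = -(a : ℂ) ^ 2 by rw [hs0]; field_simp]
    simp only [C_neg]
    ring
  have hsq := psi_sq (a : ℂ) w f
  rw [hell] at hsq
  -- nn is nonzero
  have hn0 : nn (a : ℂ) w f ≠ 0 := by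
    intro h
    rw [h, mul_zero, zero_add] at hsq
    have h1 := congrArg natDegree hsq
    rw [natDegree_pow, natDegree_mul (mul_ne_zero (C_ne_zero.mpr (neg_ne_zero.mpr hlin))
      (X_sub_C_ne_zero s0)) (pow_ne_zero _ hf), natDegree_C_mul (neg_ne_zero.mpr hlin),
      natDegree_X_sub_C, natDegree_pow] at h1
    omega
  -- every root is s0
  have hroot : ∀ s, eval s (nn (a : ℂ) w f) = 0 → s = s0 := by
    intro s hs
    have h1 := psi_root (a : ℂ) w P hPc f hn0 hE s hs
    have h2 := root_ne a w P hP f hf hdeg hE s hs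
    have h3 := congrArg (eval s) hsq
    simp only [eval_pow, eval_add, eval_mul, eval_sub, eval_X, eval_C, h1, hs, mul_zero,
      zero_add] at h3
    have h4 : (-L * (s - s0)) * (eval s f) ^ 2 = 0 := by rw [← h3]; ring
    have h5 := (mul_eq_zero.mp h4).resolve_right (pow_ne_zero _ h2)
    have h6 := (mul_eq_zero.mp h5).resolve_left (neg_ne_zero.mpr hlin)
    exact sub_eq_zero.mp h6
  -- the double root is impossible
  have hdouble : ∀ q : ℂ[X], nn (a : ℂ) w f ≠ (X - C s0) ^ 2 * q := by
    intro q hq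
    have hs : eval s0 (nn (a : ℂ) w f) = 0 := by rw [hq]; simp
    have h1 := psi_root (a : ℂ) w P hPc f hn0 hE s0 hs
    have h2 := root_ne a w P hP f hf hdeg hE s0 hs
    obtain ⟨r, hr⟩ := dvd_iff_isRoot.mpr h1
    rw [hr, hq] at hsq
    have h3 : (X - C s0) * ((X - C s0) * (r ^ 2 - AA * q) - C (-L) * f ^ 2) = 0 := by
      linear_combination hsq
    have h4 := (mul_eq_zero.mp h3).resolve_left (X_sub_C_ne_zero s0)
    have h5 := congrArg (eval s0) h4
    simp only [eval_sub, eval_mul, eval_X, eval_C, eval_pow, sub_self, zero_mul, zero_sub,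
      eval_zero, neg_eq_zero] at h5
    exact (mul_ne_zero (neg_ne_zero.mpr hlin) (pow_ne_zero _ h2)) h5
  -- shape of nn
  have hshape : ∃ c : ℂ, c ≠ 0 ∧ (nn (a : ℂ) w f = C c ∨ nn (a : ℂ) w f = (X - C s0) * C c) := by
    by_cases h0 : (nn (a : ℂ) w f).natDegree = 0
    · obtain ⟨c, hc⟩ := natDegree_eq_zero.mp h0
      refine ⟨c, ?_, Or.inl hc.symm⟩
      rintro rfl
      exact hn0 (by rw [← hc, C_0])
    · obtain ⟨s, hs⟩ := IsAlgClosed.exists_root (nn (a : ℂ) w f) (by
        intro hd
        exact h0 (natDegree_eq_of_degree_eq_some hd))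
      have hs' := hroot s hs
      subst hs'
      obtain ⟨q, hq⟩ := dvd_iff_isRoot.mpr hs
      have hq0 : q ≠ 0 := by rintro rfl; exact hn0 (by rw [hq, mul_zero])
      have hqd : q.natDegree = 0 := by
        by_contra hqn
        obtain ⟨t, ht⟩ := IsAlgClosed.exists_root q (by
          intro hd
          exact hqn (natDegree_eq_of_degree_eq_some hd))
        have ht' : t = s0 := hroot t (by rw [hq, eval_mul, ht, mul_zero])
        subst ht'
        obtain ⟨q', hq'⟩ := dvd_iff_isRoot.mpr ht
        exact hdouble q' (by rw [hq]; conv_lhs => rw [hq']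
                             ring)
      obtain ⟨c, hc⟩ := natDegree_eq_zero.mp hqd
      refine ⟨c, ?_, Or.inr (by rw [hq, hc])⟩
      rintro rfl
      exact hq0 (by rw [← hc, C_0])
  obtain ⟨c, hc, hshape⟩ := hshape
  have hnTop := top_nn (a : ℂ) w f k _ hTop
  have hndeg : (nn (a : ℂ) w f).natDegree ≤ 1 := by
    rcases hshape with h | h
    · rw [h]; simp
    · rw [h]
      refine (natDegree_mul_C_le _ _).trans ?_
      rw [natDegree_X_sub_C]
  have hAAdeg : (AA * C c).natDegree ≤ 2 := by
    refine (natDegree_mul_C_le _ _).trans ?_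
    unfold AA
    compute_degree
  rcases hwk with hwk | hwk
  · -- w = 2k
    have hk1 : 1 ≤ k := by omega
    by_cases hk2 : 2 ≤ k
    · -- parity
      rcases hshape with h | h
      · rw [h] at hsq
        have hd : (C (-L) * (X - C s0) * f ^ 2).natDegree = 2 * k + 1 := by
          rw [natDegree_mul (mul_ne_zero (C_ne_zero.mpr (neg_ne_zero.mpr hlin))
            (X_sub_C_ne_zero s0)) (pow_ne_zero _ hf), natDegree_C_mul (neg_ne_zero.mpr hlin),
            natDegree_X_sub_C, natDegree_pow, ← hk]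
          ring
        have h1 := congrArg natDegree hsq
        rw [natDegree_pow, natDegree_add_eq_right_of_natDegree_lt (by rw [hd]; omega), hd] at h1
        omega
      · rw [h] at hsq
        have hps : eval s0 (psi (a : ℂ) w f) = 0 := by
          have h1 := congrArg (eval s0) hsq
          simp only [eval_pow, eval_add, eval_mul, eval_sub, eval_X, eval_C, sub_self, zero_mul,
            mul_zero, add_zero] at h1
          exact pow_eq_zero_iff (two_ne_zero) |>.mp h1
        obtain ⟨r, hr⟩ := dvd_iff_isRoot.mpr hps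
        rw [hr] at hsq
        have h3 : (X - C s0) * ((X - C s0) * r ^ 2 - (AA * C c + C (-L) * f ^ 2)) = 0 := by
          linear_combination hsq
        have h4 := (mul_eq_zero.mp h3).resolve_left (X_sub_C_ne_zero s0)
        have h5 : (X - C s0) * r ^ 2 = AA * C c + C (-L) * f ^ 2 := sub_eq_zero.mp h4
        have hd : (C (-L) * f ^ 2).natDegree = 2 * k := by
          rw [natDegree_C_mul (neg_ne_zero.mpr hlin), natDegree_pow, ← hk]
        have h6 := congrArg natDegree h5
        rw [natDegree_add_eq_right_of_natDegree_lt (by rw [hd]; omega), hd] at h6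
        have hr0 : r ≠ 0 := by
          rintro rfl
          simp at h6
          omega
        rw [natDegree_mul (X_sub_C_ne_zero s0) (pow_ne_zero _ hr0), natDegree_X_sub_C,
          natDegree_pow] at h6
        omega
    · -- w = 2
      have hk' : k = 1 := by omega
      have hw2 : w = 2 := by omega
      subst hw2
      rw [hk'] at hlc
      obtain ⟨c1, c0, hfc⟩ : ∃ c1 c0 : ℂ, f = C c1 * X + C c0 :=
        exists_eq_X_add_C_of_natDegree_le_one (by rw [← hk, hk'])
      have hc1 : c1 ≠ 0 := by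
        rw [hfc] at hlc
        simpa using hlc
      have hc0 : c0 ≠ 0 := by
        intro h
        have h1 : eval 0 (nn (a : ℂ) (2 : ℕ) f) = 0 := by
          simp [nn, bb, AA, hfc, h]
        exact root_ne a 2 P hP f hf (by rw [← hk, hk']) hE 0 h1 (by simp [hfc, h])
      have hd : derivative f = C c1 := by rw [hfc]; simp
      have hnn : nn (a : ℂ) (2 : ℕ) f = C (2 * ((a : ℂ) + 1) * c1 ^ 2) * X +
          C (4 * c0 ^ 2 + 2 * a * c0 * c1) := by
        unfold nn bb AA
        rw [hd, hfc]
        simp only [C_mul, C_add, C_pow, map_ofNat, C_1, Nat.cast_ofNat]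
        ring
      have hDD : DD (a : ℂ) (2 : ℕ) f = C (2 * c0 + 2 * ((a : ℂ) + 1) * c1) := by
        unfold DD AA
        rw [hd, hfc, derivative_C]
        simp only [C_mul, C_add, C_sub, map_ofNat, C_1, Nat.cast_ofNat]
        ring
      have hkk : kap (a : ℂ) (2 : ℕ) f = C (4 * c0 + 2 * (a : ℂ) * c1) := by
        unfold kap
        rw [hd, hfc]
        simp only [C_mul, C_add, C_sub, map_ofNat, C_1, Nat.cast_ofNat]
        ring
      have hpp : psi (a : ℂ) (2 : ℕ) f = C ((a : ℂ) * c1 - 4 * c0 + 2 * c1) * X + C ((a : ℂ) * c0) := by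
        unfold psi bb AA
        rw [hd, hfc]
        simp only [C_mul, C_add, C_sub, map_ofNat, Nat.cast_ofNat]
        ring
      have hdn : derivative (nn (a : ℂ) (2 : ℕ) f) = C (2 * ((a : ℂ) + 1) * c1 ^ 2) := by
        rw [hnn, derivative_add, derivative_C, add_zero, derivative_C_mul, derivative_X, mul_one]
      rw [hdn, hnn, hDD, hkk, hpp] at hE
      have e0 := congrArg (eval 0) hE
      have e1 := congrArg (eval 1) hE
      simp only [eval_add, eval_mul, eval_C, eval_X, mul_zero, zero_add, mul_one, eval_zero]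
        at e0 e1
      have ha1 : ((a : ℂ) + 1) ≠ 0 := by exact_mod_cast Nat.succ_ne_zero a
      have hR : 4 * c0 + 4 * ((a : ℂ) + 1) * c1 + P * (3 * a + 2) * c1 = 0 := by
        have h1 : (((a : ℂ) + 1) * c1 ^ 2) *
            (4 * c0 + 4 * ((a : ℂ) + 1) * c1 + P * (3 * a + 2) * c1) = 0 := by
          linear_combination e1 - e0
        exact (mul_eq_zero.mp h1).resolve_left (mul_ne_zero ha1 (pow_ne_zero _ hc1))
      have hc0' : c0 = -c1 * (4 * ((a : ℂ) + 1) + P * (3 * a + 2)) / 4 := by
        linear_combination hR / 4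
      have hfin : c0 * c1 ^ 2 * (P * ((3 * (a : ℂ) + 2) * P + 3 * a + 4) *
          ((3 * (a : ℂ) + 2) * P + 4 * a + 6)) = 0 := by
        have h2 : c0 * ((2 * c0 + a * c1) * (2 * c0 + 2 * ((a : ℂ) + 1) * c1) +
          (P / 2) * ((2 * c0 + a * c1) * (4 * c0 + 2 * a * c1) + a * (a + 1) * c1 ^ 2)) = 0 := by
          linear_combination e0 / 2
        have h3 := (mul_eq_zero.mp h2).resolve_left hc0
        rw [hc0'] at h3
        have h4 : c1 ^ 2 * (P * ((3 * (a : ℂ) + 2) * P + 3 * a + 4) *
          ((3 * (a : ℂ) + 2) * P + 4 * a + 6)) = 0 := by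
          linear_combination 4 * h3
        rw [mul_assoc, h4, mul_zero]
      have h1 : ((3 * (a : ℂ) + 2) * P + 3 * a + 4) ≠ 0 := by
        have : (((3 * (a : ℝ) + 2) * P + 3 * a + 4 : ℝ) : ℂ) ≠ 0 := by
          rw [Complex.ofReal_ne_zero]
          have : 0 < (3 * (a : ℝ) + 2) * (P + 1) := mul_pos (by positivity) (by linarith)
          nlinarith
        push_cast at this
        exact this
      have h2 : ((3 * (a : ℂ) + 2) * P + 4 * a + 6) ≠ 0 := by
        have : (((3 * (a : ℝ) + 2) * P + 4 * a + 6 : ℝ) : ℂ) ≠ 0 := by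
          rw [Complex.ofReal_ne_zero]
          have : 0 < (3 * (a : ℝ) + 2) * (P + 1) := mul_pos (by positivity) (by linarith)
          have ha0 : (0 : ℝ) ≤ a := Nat.cast_nonneg a
          nlinarith
        push_cast at this
        exact this
      exact (mul_ne_zero (mul_ne_zero hc0 (pow_ne_zero _ hc1))
        (mul_ne_zero (mul_ne_zero hPc h1) h2)) hfin
  · -- w = 2k+1
    have hk1 : 1 ≤ k := by omega
    have h1 : (nn (a : ℂ) w f).coeff (2 * k) = 0 :=
      coeff_eq_zero_of_natDegree_lt (by omega)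
    rw [hnTop.2] at h1
    have h2 : ((w : ℂ) - 2 * k) = 1 := by
      rw [hwk]; push_cast; ring
    rw [h2] at h1
    simp only [one_pow, one_mul] at h1
    exact (pow_ne_zero _ hlc) h1

end

end Pool.Agent.Helper43.PLap
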