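import Mathlib
import Pool.Agent.Helper43.PLap.TThree

set_option autoImplicit false

open Polynomial

namespace Pool.Agent.Helper43.PLap

noncomputable section

def E2 (P κ : ℂ) (h1 h2 p1 p1d : ℂ[X]) : ℂ[X] :=
  4 * p1 * h1 * p1d + C P * (h1 ^ 2 * (C κ * p1 - p1d) + p1 ^ 2 * h2 + 2 * p1 * h1 * p1d)

/-- planar homogeneous solutions, in one variable -/
lemma twoD (k : ℕ) (hk : 2 ≤ k) (P : ℝ) (hP : -1 < P) (hP0 : P ≠ 0) (h : ℂ[X])
    (hdeg : h.natDegree ≤ k)
    (hE : 4 * (C (k : ℂ) * h - X * derivative h) * derivative h *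
        derivative (C (k : ℂ) * h - X * derivative h) +
      C (P : ℂ) * (derivative h ^ 2 * (C ((k : ℂ) - 1) * (C (k : ℂ) * h - X * derivative h) -
          X * derivative (C (k : ℂ) * h - X * derivative h)) +
        (C (k : ℂ) * h - X * derivative h) ^ 2 * derivative (derivative h) +
        2 * (C (k : ℂ) * h - X * derivative h) * derivative h *
          derivative (C (k : ℂ) * h - X * derivative h)) = 0) :
    (∃ c : ℂ, h = C c) ∨ ∃ c : ℂ, h = C c * X ^ k := by
  by_contra hcon
  push Not at hcon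
  obtain ⟨hc1, hc2⟩ := hcon
  have hk0 : (k : ℂ) ≠ 0 := by exact_mod_cast (show k ≠ 0 by omega)
  have hPc : (P : ℂ) ≠ 0 := Complex.ofReal_ne_zero.mpr hP0
  have hP1 : (1 + (P : ℂ)) ≠ 0 := by
    have : ((1 + P : ℝ) : ℂ) ≠ 0 := Complex.ofReal_ne_zero.mpr (by linarith)
    simpa using this
  have hh0 : h ≠ 0 := by
    rintro rfl
    exact hc1 0 (by simp)
  set p1 : ℂ[X] := C (k : ℂ) * h - X * derivative h with hp1
  have hp10 : p1 ≠ 0 := by
    intro h0
    apply hc2 (h.coeff k)
    ext i
    rw [coeff_C_mul, coeff_X_pow]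
    by_cases hi : i = k
    · simp [hi]
    · rw [if_neg hi, mul_zero]
      have h1 := congrArg (fun q => coeff q i) h0
      simp only [hp1, coeff_sub, coeff_C_mul, coeff_zero] at h1
      rcases i with _ | i
      · simp only [coeff_X_mul_zero, sub_zero] at h1
        exact (mul_eq_zero.mp h1).resolve_left hk0
      · rw [coeff_X_mul, coeff_derivative] at h1
        have h2 : h.coeff (i + 1) * ((k : ℂ) - ((i + 1 : ℕ) : ℂ)) = 0 := by
          push_cast; linear_combination h1
        refine (mul_eq_zero.mp h2).resolve_right (fun h3 => hi ?_)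
        have h4 : (k : ℂ) = ((i + 1 : ℕ) : ℂ) := sub_eq_zero.mp h3
        exact_mod_cast h4.symm
  have hp20 : derivative h ≠ 0 := by
    intro h0
    have h1 := derivative_eq_zero.mp h0
    obtain ⟨c, hc⟩ := natDegree_eq_zero.mp h1
    exact hc1 c hc.symm
  have hder : derivative p1 = C ((k : ℂ) - 1) * derivative h - X * derivative (derivative h) := by
    rw [hp1, derivative_sub, derivative_mul, derivative_mul, derivative_C, derivative_X]
    simp only [C_sub, C_1]
    ring
  set μ : ℂ[X] := p1 * derivative h with hμ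
  have hμ0 : μ ≠ 0 := mul_ne_zero hp10 hp20
  have hE' : μ * (4 * derivative p1 + C (P : ℂ) * (C (2 * (k : ℂ) - 2) * derivative h)) +
      C (P : ℂ) * ((p1 - X * derivative h) * derivative μ) = 0 := by
    have h1 : derivative μ = derivative p1 * derivative h + p1 * derivative (derivative h) := by
      rw [hμ, derivative_mul]
    have h2 : C (2 * (k : ℂ) - 2) = C 2 * C ((k : ℂ) - 1) := by rw [← C_mul]; congr 1; ring
    have h3 : (C 2 : ℂ[X]) = 2 := rfl
    rw [h1, h2, h3, hμ]
    linear_combination hE - C (P : ℂ) * p1 * derivative h * hder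
  -- no roots
  have hroot : ∀ t, eval t μ ≠ 0 := by
    intro t ht
    -- p1 - X h' vanishes at t
    obtain ⟨n1, hn1, hnd⟩ := exists_eq_pow_rootMultiplicity_mul_and_not_dvd μ hμ0 t
    have hns : eval t n1 ≠ 0 := fun h => hnd (dvd_iff_isRoot.mpr h)
    have hmul : 0 < rootMultiplicity t μ := (rootMultiplicity_pos hμ0).mpr ht
    obtain ⟨j, hj⟩ : ∃ j, rootMultiplicity t μ = j + 1 :=
      ⟨_, (Nat.succ_pred_eq_of_pos hmul).symm⟩
    rw [hj] at hn1
    have h1 : derivative μ = (X - C t) ^ j * (C ((j : ℂ) + 1) * n1 +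
        (X - C t) * derivative n1) := by
      rw [hn1, derivative_mul, derivative_tau_pow]
      ring
    rw [h1] at hE'
    have h2 : (X - C t) ^ j * ((X - C t) * n1 * (4 * derivative p1 +
          C (P : ℂ) * (C (2 * (k : ℂ) - 2) * derivative h)) +
        C (P : ℂ) * (C ((j : ℂ) + 1) * n1 + (X - C t) * derivative n1) *
          (p1 - X * derivative h)) = 0 := by
      rw [← hE']
      conv_rhs => rw [hn1]
      ring
    have h3 := (mul_eq_zero.mp h2).resolve_left (pow_ne_zero _ (X_sub_C_ne_zero t))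
    have h4 := congrArg (eval t) h3
    simp only [eval_add, eval_mul, eval_sub, eval_X, eval_C, sub_self, zero_mul, zero_add, add_zero,
      eval_zero] at h4
    have hj1 : (j : ℂ) + 1 ≠ 0 := by exact_mod_cast Nat.succ_ne_zero j
    have h5 : eval t p1 - t * eval t (derivative h) = 0 :=
      (mul_eq_zero.mp h4).resolve_left (mul_ne_zero hPc (mul_ne_zero hj1 hns))
    have h6 : eval t p1 * eval t (derivative h) = 0 := by
      rw [← eval_mul]; exact ht
    have h7 : eval t p1 = k * eval t h - t * eval t (derivative h) := by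
      simp [hp1]
    obtain ⟨g, hg, hgd⟩ := exists_eq_pow_rootMultiplicity_mul_and_not_dvd h hh0 t
    have hgs : eval t g ≠ 0 := fun h => hgd (dvd_iff_isRoot.mpr h)
    by_cases ht0 : t = 0
    · subst ht0
      have hh : eval 0 h = 0 := by
        rw [zero_mul, sub_zero] at h5
        rw [h5, zero_mul, sub_zero] at h7
        exact (mul_eq_zero.mp h7.symm).resolve_left hk0
      have hmul : 0 < rootMultiplicity 0 h := (rootMultiplicity_pos hh0).mpr hh
      obtain ⟨i, hi⟩ : ∃ i, rootMultiplicity 0 h = i + 1 :=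
        ⟨_, (Nat.succ_pred_eq_of_pos hmul).symm⟩
      rw [hi] at hg
      simp only [C_0, sub_zero] at hg
      have hg0 : g ≠ 0 := by rintro rfl; simp at hgs
      have hik : i + 1 < k := by
        have hd : h.natDegree = (i + 1) + g.natDegree := by
          conv_lhs => rw [hg]
          rw [natDegree_mul (pow_ne_zero _ X_ne_zero) hg0, natDegree_X_pow]
        rcases Nat.lt_or_ge (i + 1) k with h' | h'
        · exact h'
        · exfalso
          have h8 : i + 1 = k := by omega
          have h9 : g.natDegree = 0 := by omega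
          obtain ⟨c, hc⟩ := natDegree_eq_zero.mp h9
          apply hc2 c
          conv_lhs => rw [hg]
          rw [h8, ← hc]
          ring
      have hdX : ∀ l : ℕ, derivative ((X : ℂ[X]) ^ (l + 1)) = C ((l : ℂ) + 1) * X ^ l := by
        intro l; rw [derivative_X_pow]; simp
      have hdX' : ∀ l : ℕ, X * derivative ((X : ℂ[X]) ^ l) = C (l : ℂ) * X ^ l := by
        intro l
        rcases l with _ | l
        · simp
        · rw [hdX]; push_cast; ring
      set g1 : ℂ[X] := C ((i : ℂ) + 1) * g + X * derivative g with hg1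
      set g2 : ℂ[X] := C (i : ℂ) * g1 + X * derivative g1 with hg2
      set q1 : ℂ[X] := C (k : ℂ) * g - g1 with hq1
      set q2 : ℂ[X] := C ((i : ℂ) + 1) * q1 + X * derivative q1 with hq2
      have e1 : derivative h = X ^ i * g1 := by
        rw [hg, derivative_mul, hdX, hg1]; ring
      have e2 : X * derivative (derivative h) = X ^ i * g2 := by
        rw [e1, derivative_mul, mul_add, ← mul_assoc, hdX', hg2]; ring
      have e3 : p1 = X ^ (i + 1) * q1 := by
        rw [hp1, e1, hq1]
        conv_lhs => rw [hg]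
        ring
      have e4 : derivative p1 = X ^ i * q2 := by
        rw [e3, derivative_mul, hdX, hq2]; ring
      have h8 : (X : ℂ[X]) ^ (3 * i + 2) * (4 * q1 * g1 * q2 + C (P : ℂ) *
          (g1 ^ 2 * (C ((k : ℂ) - 1) * q1 - q2) + q1 ^ 2 * g2 + 2 * q1 * g1 * q2)) = 0 := by
        have h9 := congrArg (fun q => X * q) hE
        simp only [mul_zero] at h9
        rw [← h9]
        have h10 : X * (4 * p1 * derivative h * derivative p1 +
            C (P : ℂ) * (derivative h ^ 2 * (C ((k : ℂ) - 1) * p1 - X * derivative p1) +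
            p1 ^ 2 * derivative (derivative h) + 2 * p1 * derivative h * derivative p1)) =
            4 * p1 * derivative h * (X * derivative p1) +
            C (P : ℂ) * (derivative h ^ 2 * (C ((k : ℂ) - 1) * (X * p1) -
              X * (X * derivative p1)) +
            p1 ^ 2 * (X * derivative (derivative h)) +
              2 * p1 * derivative h * (X * derivative p1)) := by ring
        rw [h10, e2, e4, e3, e1]
        ring
      have h9 := (mul_eq_zero.mp h8).resolve_left (pow_ne_zero _ X_ne_zero)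
      have h10 := congrArg (eval 0) h9
      have f1 : eval 0 g1 = ((i : ℂ) + 1) * eval 0 g := by simp [hg1]
      have f2 : eval 0 g2 = (i : ℂ) * (((i : ℂ) + 1) * eval 0 g) := by simp [hg2, f1]
      have f3 : eval 0 q1 = ((k : ℂ) - (i + 1)) * eval 0 g := by simp [hq1, f1]; ring
      have f4 : eval 0 q2 = ((i : ℂ) + 1) * (((k : ℂ) - (i + 1)) * eval 0 g) := by
        simp [hq2, f3]
      have four : eval 0 (4 : ℂ[X]) = 4 := by simp
      have two : eval 0 (2 : ℂ[X]) = 2 := by simp
      simp only [eval_add, eval_mul, eval_sub, eval_pow, eval_C, eval_zero, f1, f2, f3, f4,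
        four, two] at h10
      have h11 : (((k : ℂ) - (i + 1)) * ((i : ℂ) + 1) * (eval 0 g) ^ 3) *
          (4 * ((k : ℂ) - (i + 1)) * (i + 1) * (1 + P) - P * k) = 0 := by
        linear_combination h10
      obtain ⟨l, hl⟩ : ∃ l : ℕ, k = (i + 1) + (l + 1) := ⟨k - (i + 1) - 1, by omega⟩
      have hkc : (k : ℂ) - (i + 1) = l + 1 := by rw [hl]; push_cast; ring
      have hkc' : (k : ℂ) = (i + 1) + (l + 1) := by rw [hl]; push_cast; ring
      rw [hkc, hkc'] at h11
      have g0 : ((l : ℂ) + 1) * ((i : ℂ) + 1) * (eval 0 g) ^ 3 ≠ 0 :=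
        mul_ne_zero (mul_ne_zero (by exact_mod_cast Nat.succ_ne_zero l)
          (by exact_mod_cast Nat.succ_ne_zero i)) (pow_ne_zero _ hgs)
      have h12 := (mul_eq_zero.mp h11).resolve_left g0
      have h13 : ((4 * ((l : ℝ) + 1) * (i + 1) * (1 + P) - P * ((i + 1) + (l + 1)) : ℝ) : ℂ) = 0 := by
        push_cast
        exact h12
      rw [Complex.ofReal_eq_zero] at h13
      have hl0 : (0 : ℝ) ≤ l := Nat.cast_nonneg l
      have hi0 : (0 : ℝ) ≤ i := Nat.cast_nonneg i
      nlinarith [mul_pos (show 0 < 1 + P by linarith)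
        (show 0 < 4 * ((l : ℝ) + 1) * (i + 1) - ((i + 1) + (l + 1)) by nlinarith)]
    · have hz1 : eval t (derivative h) = 0 := by
        rcases mul_eq_zero.mp h6 with h8 | h8
        · rw [h8, zero_sub, neg_eq_zero] at h5
          exact (mul_eq_zero.mp h5).resolve_left ht0
        · exact h8
      have hz0 : eval t h = 0 := by
        rw [hz1, mul_zero, sub_zero] at h5 h7
        rw [h5] at h7
        exact (mul_eq_zero.mp h7.symm).resolve_left hk0
      have h2m : 1 < rootMultiplicity t h := (one_lt_rootMultiplicity_iff_isRoot hh0).mpr ⟨hz0, hz1⟩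
      obtain ⟨i, hi⟩ : ∃ i, rootMultiplicity t h = i + 2 := ⟨rootMultiplicity t h - 2, by omega⟩
      rw [hi] at hg
      set τ : ℂ[X] := X - C t with hτ
      have hdτ : ∀ l : ℕ, derivative (τ ^ (l + 1)) = C ((l : ℂ) + 1) * τ ^ l :=
        fun l => derivative_tau_pow t l
      set g1 : ℂ[X] := C ((i : ℂ) + 2) * g + τ * derivative g with hg1
      set g2 : ℂ[X] := C ((i : ℂ) + 1) * g1 + τ * derivative g1 with hg2
      set q1 : ℂ[X] := C (k : ℂ) * τ * g - X * g1 with hq1
      set q2 : ℂ[X] := C ((i : ℂ) + 1) * q1 + τ * derivative q1 with hq2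
      have e1 : derivative h = τ ^ (i + 1) * g1 := by
        rw [hg, derivative_mul, show i + 2 = (i + 1) + 1 from rfl, hdτ, hg1]
        push_cast
        rw [show (i : ℂ) + 1 + 1 = i + 2 by ring]
        ring
      have e2 : derivative (derivative h) = τ ^ i * g2 := by
        rw [e1, derivative_mul, hdτ, hg2]; ring
      have e3 : p1 = τ ^ (i + 1) * q1 := by
        rw [hp1, e1, hq1]
        conv_lhs => rw [hg]
        ring
      have e4 : derivative p1 = τ ^ i * q2 := by
        rw [e3, derivative_mul, hdτ, hq2]; ring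
      have h8 : τ ^ (3 * i + 2) * (4 * q1 * g1 * q2 + C (P : ℂ) *
          (g1 ^ 2 * (C ((k : ℂ) - 1) * (τ * q1) - X * q2) + q1 ^ 2 * g2 + 2 * q1 * g1 * q2)) = 0 := by
        rw [← hE, e2, e4, e3, e1]
        ring
      have h9 := (mul_eq_zero.mp h8).resolve_left (pow_ne_zero _ (X_sub_C_ne_zero t))
      have h10 := congrArg (eval t) h9
      have e0 : eval t τ = 0 := by simp [hτ]
      have f1 : eval t g1 = ((i : ℂ) + 2) * eval t g := by simp [hg1, e0]
      have f2 : eval t g2 = ((i : ℂ) + 1) * eval t g1 := by simp [hg2, e0]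
      have f3 : eval t q1 = - t * eval t g1 := by simp [hq1, e0]
      have f4 : eval t q2 = ((i : ℂ) + 1) * eval t q1 := by simp [hq2, e0]
      have four : eval t (4 : ℂ[X]) = 4 := by simp
      have two : eval t (2 : ℂ[X]) = 2 := by simp
      simp only [eval_add, eval_mul, eval_sub, eval_pow, eval_C, eval_X, eval_zero, f2, f4,
        four, two, e0, zero_mul, mul_zero, zero_sub] at h10
      rw [f3] at h10
      have h11 : t ^ 2 * ((i : ℂ) + 1) * (eval t g1) ^ 3 * (4 * (1 + P)) = 0 := by
        linear_combination h10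
      have hi1 : (i : ℂ) + 1 ≠ 0 := by exact_mod_cast Nat.succ_ne_zero i
      have hi2 : (i : ℂ) + 2 ≠ 0 := by exact_mod_cast Nat.succ_ne_zero (i + 1)
      have hgg : eval t g1 ≠ 0 := by rw [f1]; exact mul_ne_zero hi2 hgs
      exact (mul_ne_zero (mul_ne_zero (mul_ne_zero (pow_ne_zero _ ht0) hi1) (pow_ne_zero _ hgg))
        (mul_ne_zero (by norm_num) hP1)) h11
  -- so μ is constant
  have hμd : μ.natDegree = 0 := by
    by_contra hd
    obtain ⟨t, ht⟩ := IsAlgClosed.exists_root μ (by
      intro h'
      exact hd (natDegree_eq_of_degree_eq_some h'))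
    exact hroot t ht
  rw [hμ, natDegree_mul hp10 hp20] at hμd
  have hd1 : (derivative h).natDegree = 0 := by omega
  have hd2 : p1.natDegree = 0 := by omega
  obtain ⟨c, hc⟩ := natDegree_eq_zero.mp hd1
  have hdd : derivative (derivative h) = 0 := by rw [← hc, derivative_C]
  have hdp : derivative p1 = 0 := derivative_of_natDegree_zero hd2
  rw [hder, hdd, mul_zero, sub_zero] at hdp
  rcases mul_eq_zero.mp hdp with h' | h'
  · rw [C_eq_zero] at h'
    have : (k : ℂ) = ((1 : ℕ) : ℂ) := by push_cast; linear_combination h'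
    have : k = 1 := by exact_mod_cast this
    omega
  · exact hp20 h'

/-- an edge of slope less than one cannot occur -/
lemma edge (j : ℕ) (k σ c P : ℂ) (hk : k ≠ 0) (hc : c ≠ 0) (hP : P ≠ 0) (g h : ℂ[X])
    (hg : eval 0 g ≠ 0) (hh : h = C c + X ^ (j + 2) * g)
    (hE : 4 * (C k * h - C σ * X * derivative h) * derivative h *
        derivative (C k * h - C σ * X * derivative h) +
      C P * (derivative h ^ 2 * (C (k - 1) * (C k * h - C σ * X * derivative h) -
          C σ * X * derivative (C k * h - C σ * X * derivative h)) +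
        (C k * h - C σ * X * derivative h) ^ 2 * derivative (derivative h) +
        2 * (C k * h - C σ * X * derivative h) * derivative h *
          derivative (C k * h - C σ * X * derivative h)) = 0) : False := by
  have hdX : ∀ l : ℕ, derivative ((X : ℂ[X]) ^ (l + 1)) = C ((l : ℂ) + 1) * X ^ l := by
    intro l; rw [derivative_X_pow]; simp
  set p1 : ℂ[X] := C k * h - C σ * X * derivative h with hp1
  set g1 : ℂ[X] := C ((j : ℂ) + 2) * g + X * derivative g with hg1
  set g2 : ℂ[X] := C ((j : ℂ) + 1) * g1 + X * derivative g1 with hg2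
  have e1 : derivative h = X ^ (j + 1) * g1 := by
    rw [hh, derivative_add, derivative_C, zero_add, derivative_mul,
      show j + 2 = (j + 1) + 1 from rfl, hdX, hg1]
    push_cast
    rw [show (j : ℂ) + 1 + 1 = j + 2 by ring]
    ring
  have e2 : derivative (derivative h) = X ^ j * g2 := by
    rw [e1, derivative_mul, hdX, hg2]; ring
  have e3 : derivative p1 = X ^ (j + 1) * (C (k - σ) * g1 - C σ * g2) := by
    have h1 : derivative p1 = C (k - σ) * derivative h - C σ * X * derivative (derivative h) := by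
      rw [hp1, derivative_sub, derivative_C_mul, mul_assoc, derivative_C_mul, derivative_mul,
        derivative_X]
      simp only [C_sub]
      ring
    rw [h1, e2, e1]
    ring
  have h1 : (X : ℂ[X]) ^ j * (C P * p1 ^ 2 * g2 + X * (X ^ j * (4 * p1 * g1 * X *
      (C (k - σ) * g1 - C σ * g2) + C P * (g1 ^ 2 * (C (k - 1) * p1 - C σ * X *
        (X ^ (j + 1) * (C (k - σ) * g1 - C σ * g2))) * X +
        2 * p1 * g1 * X * (C (k - σ) * g1 - C σ * g2))))) = 0 := by
    rw [← hE, e3, e2, e1]
    ring
  have h2 := (mul_eq_zero.mp h1).resolve_left (pow_ne_zero _ X_ne_zero)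
  have h3 := congrArg (eval 0) h2
  have f0 : eval 0 h = c := by rw [hh]; simp
  have f1 : eval 0 g1 = ((j : ℂ) + 2) * eval 0 g := by simp [hg1]
  have f2 : eval 0 g2 = ((j : ℂ) + 1) * (((j : ℂ) + 2) * eval 0 g) := by simp [hg2, f1]
  have f3 : eval 0 p1 = k * c := by simp [hp1, f0]
  simp only [eval_add, eval_mul, eval_pow, eval_C, eval_X, zero_mul, add_zero, eval_zero, f2,
    f3] at h3
  have hj1 : (j : ℂ) + 1 ≠ 0 := by exact_mod_cast Nat.succ_ne_zero j
  have hj2 : (j : ℂ) + 2 ≠ 0 := by exact_mod_cast Nat.succ_ne_zero (j + 1)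
  exact (mul_ne_zero (mul_ne_zero hP (pow_ne_zero _ (mul_ne_zero hk hc)))
    (mul_ne_zero hj1 (mul_ne_zero hj2 hg))) h3

end

end Pool.Agent.Helper43.PLap
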