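import Mathlib
import Pool.Agent.Helper43.PLap.Scale
import Pool.Agent.Helper43.PLap.TThreeB
import Pool.Agent.Helper43.PLap.TwoD

set_option autoImplicit false

open MvPolynomial

namespace Pool.Agent.Helper43.PLap

noncomputable section

/-- restriction to the line `(1,1,s)` -/
def ev : MvPolynomial (Fin 3) ℂ →ₐ[ℂ] Polynomial ℂ := aeval ![1, 1, Polynomial.X]

lemma ev_X (i : Fin 3) : ev (X i) = (![1, 1, Polynomial.X] : Fin 3 → Polynomial ℂ) i := by
  simp [ev]

lemma eval_ev (s : ℂ) (Q : MvPolynomial (Fin 3) ℂ) :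
    Polynomial.eval s (ev Q) = eval ![1, 1, s] Q := by
  induction Q using MvPolynomial.induction_on with
  | C a =>
    have : ev (C a) = Polynomial.C a := ev.commutes a
    rw [this]; simp
  | add p q hp hq => rw [map_add, Polynomial.eval_add, hp, hq, map_add]
  | mul_X p k hp =>
    rw [map_mul, Polynomial.eval_mul, hp, map_mul, ev_X, eval_X]
    congr 1
    fin_cases k <;> simp

lemma deriv_ev (Q : MvPolynomial (Fin 3) ℂ) :
    Polynomial.derivative (ev Q) = ev (pderiv 2 Q) := by
  induction Q using MvPolynomial.induction_on with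
  | C a =>
    have : ev (C a) = Polynomial.C a := ev.commutes a
    rw [this]; simp
  | add p q hp hq => simp only [map_add, hp, hq]
  | mul_X p k hp =>
    rw [map_mul, Polynomial.derivative_mul, hp, pderiv_mul, map_add, map_mul, map_mul, pderiv_X,
      ev_X]
    fin_cases k <;> simp

lemma weight_eq (ω : Fin 3 → ℕ) (d : Fin 3 →₀ ℕ) : Finsupp.weight ω d = wt ω d := by
  rw [Finsupp.weight_apply, Finsupp.sum_fintype _ _ (by simp), Fin.sum_univ_three]
  simp [wt, mul_comm]

/-- Euler identities after restriction -/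
lemma euler_ev (ω : Fin 3 → ℕ) (W : ℕ) (F : MvPolynomial (Fin 3) ℂ)
    (hF : F.IsWeightedHomogeneous ω W) :
    (ω 0 : Polynomial ℂ) * ev (pderiv 0 F) + (ω 1 : Polynomial ℂ) * ev (pderiv 1 F) +
      (ω 2 : Polynomial ℂ) * (Polynomial.X * ev (pderiv 2 F)) = (W : Polynomial ℂ) * ev F ∧
    ∀ j : Fin 3, (ω 0 : Polynomial ℂ) * ev (pderiv j (pderiv 0 F)) +
      (ω 1 : Polynomial ℂ) * ev (pderiv j (pderiv 1 F)) +
      (ω 2 : Polynomial ℂ) * (Polynomial.X * ev (pderiv j (pderiv 2 F))) =
        ((W : Polynomial ℂ) - (ω j : Polynomial ℂ)) * ev (pderiv j F) := by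
  have h := hF.sum_weight_X_mul_pderiv
  rw [Fin.sum_univ_three] at h
  simp only [nsmul_eq_mul] at h
  constructor
  · have h1 := congrArg ev h
    simp only [map_add, map_mul, map_natCast, ev_X] at h1
    simpa using h1
  · intro j
    have h1 := congrArg (fun q => ev (pderiv j q)) h
    have hc : ∀ (n : ℕ) (Q : MvPolynomial (Fin 3) ℂ), pderiv j ((n : MvPolynomial (Fin 3) ℂ) * Q) =
        (n : MvPolynomial (Fin 3) ℂ) * pderiv j Q := by
      intro n Q
      rw [← map_natCast (C : ℂ →+* MvPolynomial (Fin 3) ℂ) n, pderiv_C_mul]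
    simp only [map_add, hc, pderiv_mul, map_mul, map_natCast, ev_X, pderiv_X] at h1
    fin_cases j
    · simp at h1 ⊢
      linear_combination h1
    · simp at h1 ⊢
      linear_combination h1
    · simp at h1 ⊢
      linear_combination h1

/-- The one variable equation for an initial form with weights `(0,1,2)`. -/
lemma exact_ode (P : ℂ) (a w : ℕ) (F : MvPolynomial (Fin 3) ℂ)
    (hF : F.IsWeightedHomogeneous ![0, 1, 2] w) (hm : F.IsHomogeneous (a + w))
    (hE : ∀ x, EE P F x = 0) :
    nn a w (ev F) * DD a w (ev F) + Polynomial.C (P / 2) * (nn a w (ev F) * kap a w (ev F) +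
        Polynomial.derivative (nn a w (ev F)) * psi a w (ev F)) = 0 := by
  obtain ⟨h1, h2⟩ := euler_ev _ _ _ hF
  have hm' : F.IsWeightedHomogeneous (fun _ : Fin 3 => 1) (a + w) := hm
  obtain ⟨h3, h4⟩ := euler_ev _ _ _ hm'
  have h20 := h2 0
  have h21 := h2 1
  have h40 := h4 0
  simp only [Matrix.cons_val_zero, Matrix.cons_val_one, Matrix.cons_val, Nat.cast_zero, zero_mul,
    Nat.cast_one, one_mul, zero_add, Nat.cast_ofNat, sub_zero] at h1 h20 h21 h3 h40
  have d0 : ev (pderiv 0 (pderiv 2 F)) = Polynomial.derivative (ev (pderiv 0 F)) := by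
    rw [deriv_ev, pderiv_comm]
  have d1 : ev (pderiv 1 (pderiv 2 F)) = Polynomial.derivative (ev (pderiv 1 F)) := by
    rw [deriv_ev, pderiv_comm]
  have d2 : ev (pderiv 2 (pderiv 2 F)) = Polynomial.derivative (ev (pderiv 2 F)) := by
    rw [deriv_ev]
  have d3 : ev (pderiv 2 F) = Polynomial.derivative (ev F) := (deriv_ev F).symm
  have c01 : ev (pderiv 0 (pderiv 1 F)) = ev (pderiv 1 (pderiv 0 F)) := by rw [pderiv_comm]
  set φ := ev F with hφ
  set φ1 := Polynomial.derivative φ with hφ1
  set φ2 := Polynomial.derivative φ1 with hφ2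
  have f1 : ev (pderiv 1 F) = (w : Polynomial ℂ) * φ - 2 * (Polynomial.X * φ1) := by
    rw [← d3]; linear_combination h1
  have f0 : ev (pderiv 0 F) = (a : Polynomial ℂ) * φ + Polynomial.X * φ1 := by
    rw [d3] at h3
    push_cast at h3
    linear_combination h3 - f1
  have g1 : Polynomial.derivative (ev (pderiv 1 F)) =
      ((w : Polynomial ℂ) - 2) * φ1 - 2 * (Polynomial.X * φ2) := by
    rw [f1]
    simp only [Polynomial.derivative_sub, Polynomial.derivative_mul, Polynomial.derivative_X,
      Polynomial.derivative_natCast, Polynomial.derivative_ofNat]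
    rw [← hφ1, ← hφ2]; ring
  have g0 : Polynomial.derivative (ev (pderiv 0 F)) =
      ((a : Polynomial ℂ) + 1) * φ1 + Polynomial.X * φ2 := by
    rw [f0]
    simp only [Polynomial.derivative_add, Polynomial.derivative_mul, Polynomial.derivative_X,
      Polynomial.derivative_natCast]
    rw [← hφ1, ← hφ2]; ring
  have f02 : ev (pderiv 0 (pderiv 2 F)) = ((a : Polynomial ℂ) + 1) * φ1 + Polynomial.X * φ2 := by
    rw [d0, g0]
  have f12 : ev (pderiv 1 (pderiv 2 F)) =
      ((w : Polynomial ℂ) - 2) * φ1 - 2 * (Polynomial.X * φ2) := by rw [d1, g1]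
  have f22 : ev (pderiv 2 (pderiv 2 F)) = φ2 := by rw [d2, d3]
  have f11 : ev (pderiv 1 (pderiv 1 F)) = ((w : Polynomial ℂ) - 1) *
      ((w : Polynomial ℂ) * φ - 2 * (Polynomial.X * φ1)) -
      2 * (Polynomial.X * (((w : Polynomial ℂ) - 2) * φ1 - 2 * (Polynomial.X * φ2))) := by
    rw [f12, f1] at h21
    linear_combination h21
  have f01 : ev (pderiv 0 (pderiv 1 F)) = (w : Polynomial ℂ) *
      ((a : Polynomial ℂ) * φ + Polynomial.X * φ1) -
      2 * (Polynomial.X * (((a : Polynomial ℂ) + 1) * φ1 + Polynomial.X * φ2)) := by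
    rw [f02, f0] at h20
    linear_combination h20
  have f00 : ev (pderiv 0 (pderiv 0 F)) = ((a : Polynomial ℂ) + (w : Polynomial ℂ) - 1) *
      ((a : Polynomial ℂ) * φ + Polynomial.X * φ1) -
      ((w : Polynomial ℂ) * ((a : Polynomial ℂ) * φ + Polynomial.X * φ1) -
        2 * (Polynomial.X * (((a : Polynomial ℂ) + 1) * φ1 + Polynomial.X * φ2))) -
      Polynomial.X * (((a : Polynomial ℂ) + 1) * φ1 + Polynomial.X * φ2) := by
    rw [f02, f01, f0] at h40
    push_cast at h40
    linear_combination h40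
  have hpoly : (ev (pderiv 1 F) ^ 2 + 2 * ev (pderiv 0 F) * ev (pderiv 2 F)) *
      (ev (pderiv 1 (pderiv 1 F)) + 2 * ev (pderiv 0 (pderiv 2 F))) +
      Polynomial.C P * (ev (pderiv 2 F) ^ 2 * ev (pderiv 0 (pderiv 0 F)) +
        ev (pderiv 1 F) ^ 2 * ev (pderiv 1 (pderiv 1 F)) +
        ev (pderiv 0 F) ^ 2 * ev (pderiv 2 (pderiv 2 F)) +
        2 * ev (pderiv 2 F) * ev (pderiv 1 F) * ev (pderiv 0 (pderiv 1 F)) +
        2 * ev (pderiv 2 F) * ev (pderiv 0 F) * ev (pderiv 0 (pderiv 2 F)) +
        2 * ev (pderiv 1 F) * ev (pderiv 0 F) * ev (pderiv 1 (pderiv 2 F))) = 0 := by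
    apply Polynomial.funext
    intro s
    have h := hE ![1, 1, s]
    unfold EE ENum at h
    simp only [← eval_ev] at h
    simp only [Polynomial.eval_add, Polynomial.eval_mul, Polynomial.eval_pow, Polynomial.eval_C,
      Polynomial.eval_ofNat, Polynomial.eval_zero]
    exact h
  rw [f00, f01, f02, f11, f12, f22, f0, f1, d3] at hpoly
  have hdn : Polynomial.derivative (nn (a : ℂ) w φ) =
      2 * Polynomial.C ((w : ℂ) ^ 2) * φ * φ1 - 2 * Polynomial.C (2 * (w : ℂ)) * φ * φ1 +
      2 * bb a w * φ1 ^ 2 + 2 * bb a w * φ * φ2 + (8 * Polynomial.X + 2) * φ1 ^ 2 +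
      2 * AA * φ1 * φ2 := by
    unfold nn bb AA
    simp only [Polynomial.derivative_add, Polynomial.derivative_mul, Polynomial.derivative_X,
      Polynomial.derivative_C, Polynomial.derivative_pow, Polynomial.derivative_sub,
      Polynomial.derivative_ofNat, map_ofNat]
    rw [← hφ1, ← hφ2]
    simp only [map_ofNat, map_mul, map_pow, map_natCast, Nat.cast_ofNat, map_one, pow_one]
    ring
  rw [hdn]
  have hC : Polynomial.C (P / 2) * 2 = Polynomial.C P := by
    rw [← map_ofNat (Polynomial.C : ℂ →+* Polynomial ℂ) 2, ← Polynomial.C_mul]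
    congr 1; ring
  rw [← hC] at hpoly
  unfold nn DD kap psi bb AA
  rw [← hφ1, ← hφ2]
  simp only [map_ofNat, map_mul, map_pow, map_natCast, map_add, map_sub, map_one]
  linear_combination hpoly

/-- The one variable equation for an initial form with weights `(p,0,q)`. -/
lemma deg_ode (P : ℂ) (p q W : ℕ) (hp : 0 < p) (F : MvPolynomial (Fin 3) ℂ)
    (hF : F.IsWeightedHomogeneous ![p, 0, q] (W * p))
    (hE : ∀ x, EE2 P F x = 0) :
    4 * (Polynomial.C (W : ℂ) * ev F - Polynomial.C ((q : ℂ) / p) * Polynomial.X *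
          Polynomial.derivative (ev F)) * Polynomial.derivative (ev F) *
        Polynomial.derivative (Polynomial.C (W : ℂ) * ev F - Polynomial.C ((q : ℂ) / p) *
          Polynomial.X * Polynomial.derivative (ev F)) +
      Polynomial.C P * (Polynomial.derivative (ev F) ^ 2 * (Polynomial.C ((W : ℂ) - 1) *
          (Polynomial.C (W : ℂ) * ev F - Polynomial.C ((q : ℂ) / p) * Polynomial.X *
            Polynomial.derivative (ev F)) -
          Polynomial.C ((q : ℂ) / p) * Polynomial.X *
            Polynomial.derivative (Polynomial.C (W : ℂ) * ev F - Polynomial.C ((q : ℂ) / p) *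
              Polynomial.X * Polynomial.derivative (ev F))) +
        (Polynomial.C (W : ℂ) * ev F - Polynomial.C ((q : ℂ) / p) * Polynomial.X *
          Polynomial.derivative (ev F)) ^ 2 *
          Polynomial.derivative (Polynomial.derivative (ev F)) +
        2 * (Polynomial.C (W : ℂ) * ev F - Polynomial.C ((q : ℂ) / p) * Polynomial.X *
          Polynomial.derivative (ev F)) * Polynomial.derivative (ev F) *
          Polynomial.derivative (Polynomial.C (W : ℂ) * ev F - Polynomial.C ((q : ℂ) / p) *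
            Polynomial.X * Polynomial.derivative (ev F))) = 0 := by
  obtain ⟨h1, h2⟩ := euler_ev _ _ _ hF
  have h20 := h2 0
  simp only [Matrix.cons_val_zero, Matrix.cons_val_one, Matrix.cons_val, Nat.cast_zero, zero_mul,
    add_zero] at h1 h20
  have d0 : ev (pderiv 0 (pderiv 2 F)) = Polynomial.derivative (ev (pderiv 0 F)) := by
    rw [deriv_ev, pderiv_comm]
  have d2 : ev (pderiv 2 (pderiv 2 F)) = Polynomial.derivative (ev (pderiv 2 F)) := by
    rw [deriv_ev]
  have d3 : ev (pderiv 2 F) = Polynomial.derivative (ev F) := (deriv_ev F).symm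
  have hpc : (p : ℂ) ≠ 0 := by exact_mod_cast hp.ne'
  have hcp : (p : Polynomial ℂ) ≠ 0 := by exact_mod_cast hp.ne'
  have hq : (q : Polynomial ℂ) = (p : Polynomial ℂ) * Polynomial.C ((q : ℂ) / p) := by
    rw [← map_natCast (Polynomial.C : ℂ →+* Polynomial ℂ) p, ← Polynomial.C_mul,
      mul_div_cancel₀ _ hpc, map_natCast]
  have f0 : ev (pderiv 0 F) = Polynomial.C (W : ℂ) * ev F - Polynomial.C ((q : ℂ) / p) *
      Polynomial.X * Polynomial.derivative (ev F) := by
    rw [d3, hq] at h1
    push_cast at h1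
    have h3 : (p : Polynomial ℂ) * (ev (pderiv 0 F) - (Polynomial.C (W : ℂ) * ev F -
        Polynomial.C ((q : ℂ) / p) * Polynomial.X * Polynomial.derivative (ev F))) = 0 := by
      rw [map_natCast]
      linear_combination h1
    exact sub_eq_zero.mp ((mul_eq_zero.mp h3).resolve_left hcp)
  have f00 : ev (pderiv 0 (pderiv 0 F)) = Polynomial.C ((W : ℂ) - 1) * ev (pderiv 0 F) -
      Polynomial.C ((q : ℂ) / p) * Polynomial.X * Polynomial.derivative (ev (pderiv 0 F)) := by
    rw [d0, hq] at h20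
    push_cast at h20
    have h3 : (p : Polynomial ℂ) * (ev (pderiv 0 (pderiv 0 F)) -
        (Polynomial.C ((W : ℂ) - 1) * ev (pderiv 0 F) -
      Polynomial.C ((q : ℂ) / p) * Polynomial.X * Polynomial.derivative (ev (pderiv 0 F)))) = 0 := by
      rw [map_sub, map_natCast, map_one]
      linear_combination h20
    exact sub_eq_zero.mp ((mul_eq_zero.mp h3).resolve_left hcp)
  have hpoly : 4 * ev (pderiv 0 F) * ev (pderiv 2 F) * ev (pderiv 0 (pderiv 2 F)) +
      Polynomial.C P * (ev (pderiv 2 F) ^ 2 * ev (pderiv 0 (pderiv 0 F)) +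
        ev (pderiv 0 F) ^ 2 * ev (pderiv 2 (pderiv 2 F)) +
        2 * ev (pderiv 0 F) * ev (pderiv 2 F) * ev (pderiv 0 (pderiv 2 F))) = 0 := by
    apply Polynomial.funext
    intro s
    have h := hE ![1, 1, s]
    unfold EE2 E2Num at h
    simp only [← eval_ev] at h
    simp only [Polynomial.eval_add, Polynomial.eval_mul, Polynomial.eval_pow, Polynomial.eval_C,
      Polynomial.eval_ofNat, Polynomial.eval_zero]
    exact h
  rw [f00, d0, d2, d3] at hpoly
  rw [← f0]
  linear_combination hpoly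

end

end Pool.Agent.Helper43.PLap
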