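import Mathlib
import Pool.Agent.Helper43.PLap.Univ

set_option autoImplicit false

open MvPolynomial

namespace Pool.Agent.Helper43.PLap

noncomputable section

lemma deg_of_hom {U : MvPolynomial (Fin 3) ℂ} {m : ℕ} (hU : U.IsHomogeneous m) {d : Fin 3 →₀ ℕ}
    (hd : coeff d U ≠ 0) : d 0 + d 1 + d 2 = m := by
  have h := hU hd
  rw [weight_eq] at h
  simpa [wt] using h

lemma ext3 {d d' : Fin 3 →₀ ℕ} (h0 : d 0 = d' 0) (h1 : d 1 = d' 1) (h2 : d 2 = d' 2) : d = d' := by
  ext i
  fin_cases i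
  · exact h0
  · exact h1
  · exact h2

lemma ev_sum (F : MvPolynomial (Fin 3) ℂ) :
    ev F = ∑ d ∈ F.support, Polynomial.C (coeff d F) * Polynomial.X ^ (d 2) := by
  conv_lhs => rw [F.as_sum]
  rw [map_sum]
  refine Finset.sum_congr rfl (fun d _ => ?_)
  rw [ev, aeval_monomial, Finsupp.prod_fintype _ _ (fun i => pow_zero _), Fin.prod_univ_three]
  simp

lemma coeff_ev (F : MvPolynomial (Fin 3) ℂ) (k : ℕ) :
    (ev F).coeff k = ∑ d ∈ F.support with d 2 = k, coeff d F := by
  rw [ev_sum, Polynomial.finsetSum_coeff, Finset.sum_filter]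
  refine Finset.sum_congr rfl (fun d _ => ?_)
  rw [Polynomial.coeff_C_mul, Polynomial.coeff_X_pow]
  by_cases h : d 2 = k
  · simp [h]
  · rw [if_neg h, if_neg (Ne.symm h), mul_zero]

lemma coeff_ev_unique (F : MvPolynomial (Fin 3) ℂ) (d : Fin 3 →₀ ℕ)
    (hd : ∀ d' ∈ F.support, d' 2 = d 2 → d' = d) : (ev F).coeff (d 2) = coeff d F := by
  rw [coeff_ev]
  by_cases h : d ∈ F.support
  · rw [Finset.sum_eq_single_of_mem d (by simp [h])]
    intro d' hd' hne
    rw [Finset.mem_filter] at hd'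
    exact absurd (hd d' hd'.1 hd'.2) hne
  · rw [notMem_support_iff.mp h]
    apply Finset.sum_eq_zero
    intro d' hd'
    rw [Finset.mem_filter] at hd'
    have := hd d' hd'.1 hd'.2
    subst this
    exact absurd hd'.1 h

lemma natDegree_ev_le (F : MvPolynomial (Fin 3) ℂ) (k : ℕ) (h : ∀ d ∈ F.support, d 2 ≤ k) :
    (ev F).natDegree ≤ k := by
  rw [ev_sum]
  apply Polynomial.natDegree_sum_le_of_forall_le
  intro d hd
  exact (Polynomial.natDegree_C_mul_X_pow_le _ _).trans (h d hd)

lemma mem_support_init {ω : Fin 3 → ℕ} {W : ℕ} {U : MvPolynomial (Fin 3) ℂ} {d : Fin 3 →₀ ℕ} :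
    d ∈ (init ω W U).support ↔ wt ω d = W ∧ d ∈ U.support := by
  rw [mem_support_iff, coeff_init, mem_support_iff]
  by_cases h : wt ω d = W <;> simp [h]

lemma init_weighted (ω : Fin 3 → ℕ) (W : ℕ) (U : MvPolynomial (Fin 3) ℂ) :
    (init ω W U).IsWeightedHomogeneous ω W := by
  intro d hd
  rw [weight_eq]
  exact (mem_support_init.mp (mem_support_iff.mpr hd)).1

lemma init_hom (ω : Fin 3 → ℕ) (W : ℕ) {U : MvPolynomial (Fin 3) ℂ} {m : ℕ}
    (hU : U.IsHomogeneous m) : (init ω W U).IsHomogeneous m := by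
  intro d hd
  exact hU (mem_support_iff.mp (mem_support_init.mp (mem_support_iff.mpr hd)).2)

/-- No solution vanishes to weight at least two at a null point. -/
lemma null_point (p : ℝ) (hp : -1 < p) (hp0 : p ≠ 0) (m : ℕ) (U : MvPolynomial (Fin 3) ℂ)
    (hU : U.IsHomogeneous m) (hE : ∀ x, EE p U x = 0)
    (h0 : ∀ d ∈ U.support, 2 ≤ d 1 + 2 * d 2)
    (hreal : ∃ d ∈ U.support, d 2 ≤ d 0) : False := by
  obtain ⟨d0, hd0, hmin⟩ := Finset.exists_min_image U.support (fun d => wt ![0, 1, 2] d)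
    (by obtain ⟨d, hd, _⟩ := hreal; exact ⟨d, hd⟩)
  set w := wt ![0, 1, 2] d0 with hw
  have hwt : ∀ d : Fin 3 →₀ ℕ, wt ![0, 1, 2] d = d 1 + 2 * d 2 := by
    intro d; simp [wt]
  have hw2 : 2 ≤ w := by rw [hw, hwt]; exact h0 d0 hd0
  have hwm : w ≤ m := by
    obtain ⟨d, hd, hdd⟩ := hreal
    have h1 := hmin d hd
    have h2 := deg_of_hom hU (mem_support_iff.mp hd)
    rw [hwt] at h1
    omega
  set F := init ![0, 1, 2] w U with hF
  have hEF := init_exact p U w hmin hE
  have hFh := init_hom ![0, 1, 2] w hU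
  obtain ⟨a, ha⟩ : ∃ a, m = a + w := ⟨m - w, by omega⟩
  rw [ha] at hFh
  have hode := exact_ode p a w F (init_weighted _ _ _) hFh hEF
  have hFd0 : d0 ∈ F.support := mem_support_init.mpr ⟨rfl, hd0⟩
  have hne : ev F ≠ 0 := by
    intro h
    have h1 := coeff_ev_unique F d0 (by
      intro d' hd' h2
      have h3 := (mem_support_init.mp hd').1
      have h4 := deg_of_hom hU (mem_support_iff.mp (mem_support_init.mp hd').2)
      have h5 := deg_of_hom hU (mem_support_iff.mp hd0)
      rw [hwt] at h3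
      rw [hw, hwt] at h3
      apply ext3 <;> omega)
    rw [h, Polynomial.coeff_zero] at h1
    exact (mem_support_iff.mp hFd0) h1.symm
  have hdeg : (ev F).natDegree ≤ w / 2 := by
    apply natDegree_ev_le
    intro d hd
    have h3 := (mem_support_init.mp hd).1
    rw [hwt] at h3
    omega
  exact tThree a w hw2 p hp hp0 (ev F) hne (by omega) hode

/-- the edge argument at a non-null point -/
lemma edge_point (p : ℝ) (hp0 : p ≠ 0) (m k : ℕ) (hk : 1 ≤ k) (U : MvPolynomial (Fin 3) ℂ)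
    (hU : U.IsHomogeneous m) (hE : ∀ x, EE p U x = 0)
    (hmin : ∀ d ∈ U.support, k ≤ d 0 + d 2)
    (hk0 : ∀ d ∈ U.support, d 0 + d 2 = k → d 0 = k)
    (hex : ∃ d ∈ U.support, d 0 = k ∧ d 2 = 0)
    (hg : ∃ d ∈ U.support, d 0 = 0) : False := by
  classical
  set S := U.support.filter (fun d => d 0 < k) with hS
  have hSne : S.Nonempty := by
    obtain ⟨d, hd, h⟩ := hg
    exact ⟨d, Finset.mem_filter.mpr ⟨hd, by omega⟩⟩
  have hSprop : ∀ d ∈ S, k - d 0 < d 2 := by
    intro d hd
    rw [hS, Finset.mem_filter] at hd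
    have h1 := hmin d hd.1
    have h2 := hk0 d hd.1
    omega
  obtain ⟨d', hd', hmax⟩ := Finset.exists_max_image S
    (fun d => ((k - d 0 : ℕ) : ℚ) / (d 2 : ℚ)) hSne
  set S' := S.filter (fun d => ((k - d 0 : ℕ) : ℚ) / (d 2 : ℚ) = ((k - d' 0 : ℕ) : ℚ) / (d' 2 : ℚ))
    with hS'
  obtain ⟨d1, hd1, hmin2⟩ := Finset.exists_min_image S' (fun d => d 2)
    ⟨d', Finset.mem_filter.mpr ⟨hd', rfl⟩⟩
  rw [hS', Finset.mem_filter] at hd1
  obtain ⟨hd1S, hd1r⟩ := hd1
  have hd1S' := hd1S
  rw [hS, Finset.mem_filter] at hd1S'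
  set P := d1 2 with hP
  set Q := k - d1 0 with hQ
  have hQP : Q < P := hSprop d1 hd1S
  have hQ0 : 0 < Q := by omega
  have hP0 : 0 < P := by omega
  -- cross multiplied maximality
  have hcross : ∀ d ∈ S, (k - d 0) * P ≤ Q * d 2 := by
    intro d hd
    have h1 := hmax d hd
    rw [← hd1r] at h1
    have h2 : 0 < d 2 := by have := hSprop d hd; omega
    rw [div_le_div_iff₀ (by exact_mod_cast h2) (by exact_mod_cast hP0)] at h1
    exact_mod_cast h1
  have hcross2 : ∀ d ∈ S, (k - d 0) * P = Q * d 2 → P ≤ d 2 := by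
    intro d hd h
    apply hmin2 d
    rw [hS', Finset.mem_filter]
    refine ⟨hd, ?_⟩
    rw [← hd1r]
    have h2 : 0 < d 2 := by have := hSprop d hd; omega
    rw [div_eq_div_iff (by exact_mod_cast h2.ne') (by exact_mod_cast hP0.ne')]
    exact_mod_cast h
  have hwt : ∀ d : Fin 3 →₀ ℕ, wt ![P, 0, Q] d = P * d 0 + Q * d 2 := by
    intro d; simp [wt]
  have hW : ∀ d ∈ U.support, k * P ≤ wt ![P, 0, Q] d := by
    intro d hd
    rw [hwt]
    by_cases h : d 0 < k
    · have h1 := hcross d (Finset.mem_filter.mpr ⟨hd, h⟩)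
      have h2 : k = (k - d 0) + d 0 := by omega
      calc k * P = (k - d 0) * P + P * d 0 := by
            conv_lhs => rw [h2]
            ring
        _ ≤ _ := by omega
    · have h1 : k ≤ d 0 := by omega
      calc k * P = P * k := by ring
        _ ≤ P * d 0 := Nat.mul_le_mul_left _ h1
        _ ≤ _ := Nat.le_add_right _ _
  set F := init ![P, 0, Q] (k * P) U with hF
  have hEF := init_deg p U P Q (k * P) (by omega) hW hE
  have hode := deg_ode p P Q k hP0 F (init_weighted _ _ _) hEF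
  -- coefficients
  obtain ⟨ds, hds, hds0, hds2⟩ := hex
  have hsupp : ∀ d ∈ F.support, (d 2 = 0 ∧ d 0 = k) ∨ P ≤ d 2 := by
    intro d hd
    obtain ⟨h1, h2⟩ := mem_support_init.mp hd
    rw [hwt] at h1
    by_cases h3 : d 2 = 0
    · left
      refine ⟨h3, ?_⟩
      rw [h3, mul_zero, add_zero, mul_comm] at h1
      exact Nat.eq_of_mul_eq_mul_right hP0 h1
    · right
      have h4 : d 0 < k := by
        by_contra h5
        have h6 : k ≤ d 0 := by omega
        have h7 : P * k ≤ P * d 0 := Nat.mul_le_mul_left _ h6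
        have h8 : 0 < Q * d 2 := Nat.mul_pos hQ0 (by omega)
        have h9 : k * P = P * k := mul_comm _ _
        omega
      apply hcross2 d (Finset.mem_filter.mpr ⟨h2, h4⟩)
      have h5 : k = (k - d 0) + d 0 := by omega
      have h6 : k * P = (k - d 0) * P + P * d 0 := by
        conv_lhs => rw [h5]
        ring
      omega
  have hc0 : (ev F).coeff 0 = coeff ds U := by
    have h1 := coeff_ev_unique F ds (by
      intro d hd h2
      rcases hsupp d hd with h3 | h3
      · have h4 := deg_of_hom hU (mem_support_iff.mp (mem_support_init.mp hd).2)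
        have h5 := deg_of_hom hU (mem_support_iff.mp hds)
        apply ext3 <;> omega
      · omega)
    rw [hds2] at h1
    rw [h1, hF, coeff_init, if_pos]
    rw [hwt, hds0, hds2]; ring
  have hcP : (ev F).coeff P = coeff d1 U := by
    have h1 := coeff_ev_unique F d1 (by
      intro d hd h2
      have h3 := (mem_support_init.mp hd).1
      rw [hwt, h2] at h3
      have h4 := deg_of_hom hU (mem_support_iff.mp (mem_support_init.mp hd).2)
      have h5 := deg_of_hom hU (mem_support_iff.mp hd1S'.1)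
      have h6 : P * (d 0 + Q) = P * k := by
        rw [mul_add, mul_comm P k, ← h3, ← hP]; ring
      have h7 := Nat.eq_of_mul_eq_mul_left hP0 h6
      apply ext3 <;> omega)
    rw [← hP] at h1
    rw [h1, hF, coeff_init, if_pos]
    rw [hwt, ← hP]
    have : k = Q + d1 0 := by omega
    conv_rhs => rw [this]
    ring
  have hcmid : ∀ i, 0 < i → i < P → (ev F).coeff i = 0 := by
    intro i hi hiP
    rw [coeff_ev]
    apply Finset.sum_eq_zero
    intro d hd
    rw [Finset.mem_filter] at hd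
    rcases hsupp d hd.1 with h3 | h3
    · omega
    · omega
  -- decomposition
  obtain ⟨j, hj⟩ : ∃ j, P = j + 2 := ⟨P - 2, by omega⟩
  have hdvd : Polynomial.X ^ (j + 2) ∣ ev F - Polynomial.C ((ev F).coeff 0) := by
    rw [Polynomial.X_pow_dvd_iff]
    intro i hi
    rcases Nat.eq_zero_or_pos i with h | h
    · subst h; simp
    · rw [Polynomial.coeff_sub, hcmid i h (by omega), Polynomial.coeff_C, if_neg (by omega),
        sub_zero]
  obtain ⟨g, hg'⟩ := hdvd
  have hg0 : Polynomial.eval 0 g ≠ 0 := by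
    have h1 := congrArg (fun q => Polynomial.coeff q (j + 2)) hg'
    simp only [Polynomial.coeff_sub, Polynomial.coeff_C, Polynomial.coeff_X_pow_mul'] at h1
    rw [if_neg (by omega), if_pos le_rfl, Nat.sub_self, sub_zero, ← hj, hcP] at h1
    rw [← Polynomial.coeff_zero_eq_eval_zero, ← h1]
    exact mem_support_iff.mp hd1S'.1
  refine edge j k ((Q : ℂ) / P) ((ev F).coeff 0) p ?_ ?_ ?_ g (ev F) hg0 ?_ hode
  · exact_mod_cast (show k ≠ 0 by omega)
  · rw [hc0]; exact mem_support_iff.mp hds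
  · exact_mod_cast hp0
  · rw [← hg']; ring

end

end Pool.Agent.Helper43.PLap
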