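import Mathlib
import Pool.Agent.Helper43.PLap.Local

set_option autoImplicit false

open MvPolynomial

namespace Pool.Agent.Helper43.PLap

noncomputable section

/-- exchanging the two null coordinates -/
def sw : Equiv.Perm (Fin 3) := Equiv.swap 0 2

lemma sw0 : sw 0 = 2 := by decide
lemma sw1 : sw 1 = 1 := by decide
lemma sw2 : sw 2 = 0 := by decide

lemma EE_swap (P : ℂ) (U : MvPolynomial (Fin 3) ℂ) (x : Fin 3 → ℂ) :
    EE P (rename sw U) x = EE P U (x ∘ sw) := by
  have hi := sw.injective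
  have h0 : ∀ Q : MvPolynomial (Fin 3) ℂ, pderiv 0 (rename sw Q) = rename sw (pderiv 2 Q) := by
    intro Q; have := pderiv_rename hi 2 Q; rwa [sw2] at this
  have h1 : ∀ Q : MvPolynomial (Fin 3) ℂ, pderiv 1 (rename sw Q) = rename sw (pderiv 1 Q) := by
    intro Q; have := pderiv_rename hi 1 Q; rwa [sw1] at this
  have h2 : ∀ Q : MvPolynomial (Fin 3) ℂ, pderiv 2 (rename sw Q) = rename sw (pderiv 0 Q) := by
    intro Q; have := pderiv_rename hi 0 Q; rwa [sw0] at this
  unfold EE
  simp only [h0, h1, h2, eval_rename]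
  rw [pderiv_comm 2 1 U, pderiv_comm 2 0 U, pderiv_comm 1 0 U]
  unfold ENum
  ring

lemma coeff_swap (U : MvPolynomial (Fin 3) ℂ) (d : Fin 3 →₀ ℕ) :
    coeff (Finsupp.mapDomain sw d) (rename sw U) = coeff d U :=
  coeff_rename_mapDomain _ sw.injective _ _

lemma mapDomain_sw (d : Fin 3 →₀ ℕ) : Finsupp.mapDomain sw d 0 = d 2 ∧
    Finsupp.mapDomain sw d 1 = d 1 ∧ Finsupp.mapDomain sw d 2 = d 0 := by
  have hi := sw.injective
  refine ⟨?_, ?_, ?_⟩
  · have := Finsupp.mapDomain_apply hi d 2; rwa [sw2] at this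
  · have := Finsupp.mapDomain_apply hi d 1; rwa [sw1] at this
  · have := Finsupp.mapDomain_apply hi d 0; rwa [sw0] at this

lemma mapDomain_sw_sw (d : Fin 3 →₀ ℕ) :
    Finsupp.mapDomain sw (Finsupp.mapDomain sw d) = d := by
  obtain ⟨h0, h1, h2⟩ := mapDomain_sw d
  obtain ⟨g0, g1, g2⟩ := mapDomain_sw (Finsupp.mapDomain sw d)
  apply ext3
  · rw [g0, h2]
  · rw [g1, h1]
  · rw [g2, h0]

lemma mem_support_swap (U : MvPolynomial (Fin 3) ℂ) (d : Fin 3 →₀ ℕ) :
    d ∈ (rename sw U).support ↔ Finsupp.mapDomain sw d ∈ U.support := by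
  rw [mem_support_iff, mem_support_iff, ← coeff_swap U (Finsupp.mapDomain sw d), mapDomain_sw_sw]

/-- A non-null zero of `U` is not a zero of the squared gradient. -/
lemma nonnull_point (p : ℝ) (hp : -1 < p) (hp0 : p ≠ 0) (m : ℕ) (U : MvPolynomial (Fin 3) ℂ)
    (hU : U.IsHomogeneous m) (hE : ∀ x, EE p U x = 0)
    (hb : ∀ d ∈ U.support, 1 ≤ d 0 + d 2)
    (hN : (∀ d ∈ U.support, d 0 + d 2 = 1 → d 0 = 1) ∨
      (∀ d ∈ U.support, d 0 + d 2 = 1 → d 2 = 1))
    (hα : ∃ d ∈ U.support, d 2 = 0) (hγ : ∃ d ∈ U.support, d 0 = 0) : False := by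
  obtain ⟨d0, hd0, hmin⟩ := Finset.exists_min_image U.support (fun d => d 0 + d 2)
    (by obtain ⟨d, hd, _⟩ := hα; exact ⟨d, hd⟩)
  set k := d0 0 + d0 2 with hk
  have hk1 : 1 ≤ k := hb d0 hd0
  have hcases : (∀ d ∈ U.support, d 0 + d 2 = k → d 0 = k) ∨
      (∀ d ∈ U.support, d 0 + d 2 = k → d 2 = k) := by
    by_cases hk2 : 2 ≤ k
    · have hwt : ∀ d : Fin 3 →₀ ℕ, wt ![1, 0, 1] d = d 0 + d 2 := by
        intro d; simp [wt]
      have hW : ∀ d ∈ U.support, k * 1 ≤ wt ![1, 0, 1] d := by
        intro d hd; rw [hwt, mul_one]; exact hmin d hd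
      set F := init ![1, 0, 1] (k * 1) U with hF
      have hEF := init_deg p U 1 1 (k * 1) (by omega) hW hE
      have hode := deg_ode p 1 1 k one_pos F (init_weighted _ _ _) hEF
      have hdeg : (ev F).natDegree ≤ k := by
        apply natDegree_ev_le
        intro d hd
        have h3 := (mem_support_init.mp hd).1
        rw [hwt] at h3
        omega
      have h1 : ((1 : ℕ) : ℂ) / ((1 : ℕ) : ℂ) = 1 := by simp
      rw [h1, Polynomial.C_1] at hode
      simp only [one_mul] at hode
      have hcoef : ∀ d ∈ U.support, d 0 + d 2 = k → (ev F).coeff (d 2) ≠ 0 := by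
        intro d hd hdk
        have h2 := coeff_ev_unique F d (by
          intro d' hd' h2
          have h3 := (mem_support_init.mp hd').1
          have h4 := deg_of_hom hU (mem_support_iff.mp (mem_support_init.mp hd').2)
          have h5 := deg_of_hom hU (mem_support_iff.mp hd)
          rw [hwt, mul_one] at h3
          apply ext3 <;> omega)
        rw [h2, hF, coeff_init, if_pos (by rw [hwt, mul_one, hdk])]
        exact mem_support_iff.mp hd
      rcases twoD k hk2 p hp hp0 (ev F) hdeg hode with ⟨c, hc⟩ | ⟨c, hc⟩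
      · left
        intro d hd hdk
        have h2 := hcoef d hd hdk
        rw [hc, Polynomial.coeff_C] at h2
        by_cases h3 : d 2 = 0
        · omega
        · rw [if_neg h3] at h2; exact absurd rfl h2
      · right
        intro d hd hdk
        have h2 := hcoef d hd hdk
        rw [hc, Polynomial.coeff_C_mul, Polynomial.coeff_X_pow] at h2
        by_cases h3 : d 2 = k
        · exact h3
        · rw [if_neg h3, mul_zero] at h2; exact absurd rfl h2
    · have hk' : k = 1 := by omega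
      rw [hk']
      exact hN
  rcases hcases with h | h
  · refine edge_point p hp0 m k hk1 U hU hE hmin h ⟨d0, hd0, h d0 hd0 rfl, ?_⟩ hγ
    have := h d0 hd0 rfl
    omega
  · have hU' : (rename sw U).IsHomogeneous m := hU.rename_isHomogeneous
    refine edge_point p hp0 m k hk1 (rename sw U) hU' ?_ ?_ ?_ ?_ ?_
    · intro x; rw [EE_swap]; exact hE _
    · intro d hd
      rw [mem_support_swap] at hd
      have h1 := hmin _ hd
      obtain ⟨e0, e1, e2⟩ := mapDomain_sw d
      simp only [e0, e2] at h1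
      omega
    · intro d hd hdk
      rw [mem_support_swap] at hd
      have h1 := h _ hd
      obtain ⟨e0, e1, e2⟩ := mapDomain_sw d
      rw [e0, e2] at h1
      exact h1 (by omega)
    · obtain ⟨e0, e1, e2⟩ := mapDomain_sw d0
      have h1 := h d0 hd0 rfl
      refine ⟨Finsupp.mapDomain sw d0, ?_, ?_, ?_⟩
      · rw [mem_support_swap, mapDomain_sw_sw]; exact hd0
      · rw [e0]; exact h1
      · rw [e2]; omega
    · obtain ⟨d, hd, hd2⟩ := hα
      obtain ⟨e0, e1, e2⟩ := mapDomain_sw d
      refine ⟨Finsupp.mapDomain sw d, ?_, ?_⟩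
      · rw [mem_support_swap, mapDomain_sw_sw]; exact hd
      · rw [e0]; exact hd2

end

end Pool.Agent.Helper43.PLap
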