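import Mathlib
import Pool.Agent.Helper43.PLap.NonNull

set_option autoImplicit false

open MvPolynomial

namespace Pool.Agent.Helper43.PLap

noncomputable section

/-- the operator in orthonormal coordinates -/
def EO (P : ℂ) (u : MvPolynomial (Fin 3) ℂ) (y : Fin 3 → ℂ) : ℂ :=
  (∑ i, (eval y (pderiv i u)) ^ 2) * (∑ i, eval y (pderiv i (pderiv i u))) +
    P * ∑ i, ∑ j, eval y (pderiv i u) * eval y (pderiv j u) * eval y (pderiv i (pderiv j u))

/-- linear forms of a frame -/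
def fr (M : Matrix (Fin 3) (Fin 3) ℂ) (i : Fin 3) : MvPolynomial (Fin 3) ℂ :=
  ∑ a, C (M i a) * X a

def IsFrame (M : Matrix (Fin 3) (Fin 3) ℂ) : Prop :=
  ∀ i j, M i 0 * M j 2 + M i 1 * M j 1 + M i 2 * M j 0 = if i = j then 1 else 0

lemma eval_fr (M : Matrix (Fin 3) (Fin 3) ℂ) (u : MvPolynomial (Fin 3) ℂ) (x : Fin 3 → ℂ) :
    eval x (bind₁ (fr M) u) = eval (M.mulVec x) u := by
  rw [eval, eval₂Hom_bind₁]
  congr 2
  funext i
  simp [fr, Matrix.mulVec, dotProduct]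

lemma pderiv_fr (M : Matrix (Fin 3) (Fin 3) ℂ) (u : MvPolynomial (Fin 3) ℂ) (a : Fin 3) :
    pderiv a (bind₁ (fr M) u) = ∑ i, C (M i a) * bind₁ (fr M) (pderiv i u) := by
  rw [pderiv_bind]
  refine Finset.sum_congr rfl (fun i _ => ?_)
  have : pderiv a (fr M i) = C (M i a) := by
    unfold fr
    rw [map_sum]
    simp only [pderiv_C_mul, pderiv_X]
    rw [Finset.sum_eq_single a]
    · simp
    · intro b _ hb
      simp [hb]
    · simp
  rw [this, mul_comm]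

lemma eval_pderiv_fr (M : Matrix (Fin 3) (Fin 3) ℂ) (u : MvPolynomial (Fin 3) ℂ) (a : Fin 3)
    (x : Fin 3 → ℂ) : eval x (pderiv a (bind₁ (fr M) u)) =
      ∑ i, M i a * eval (M.mulVec x) (pderiv i u) := by
  rw [pderiv_fr, map_sum]
  refine Finset.sum_congr rfl (fun i _ => ?_)
  rw [eval_mul, eval_C, eval_fr]

lemma eval_pderiv2_fr (M : Matrix (Fin 3) (Fin 3) ℂ) (u : MvPolynomial (Fin 3) ℂ) (a b : Fin 3)
    (x : Fin 3 → ℂ) : eval x (pderiv a (pderiv b (bind₁ (fr M) u))) =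
      ∑ i, ∑ j, M j b * M i a * eval (M.mulVec x) (pderiv i (pderiv j u)) := by
  rw [pderiv_fr, map_sum, map_sum, Finset.sum_comm]
  refine Finset.sum_congr rfl (fun j _ => ?_)
  rw [pderiv_C_mul, eval_mul, eval_C, eval_pderiv_fr, Finset.mul_sum]
  refine Finset.sum_congr rfl (fun i _ => ?_)
  ring

lemma frame_alg (P : ℂ) (M : Matrix (Fin 3) (Fin 3) ℂ) (hM : IsFrame M) (g : Fin 3 → ℂ)
    (H : Fin 3 → Fin 3 → ℂ) (hH : ∀ i j, H i j = H j i) :
    ENum P (∑ i, M i 0 * g i) (∑ i, M i 1 * g i) (∑ i, M i 2 * g i)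
      (∑ i, ∑ j, M j 0 * M i 0 * H i j) (∑ i, ∑ j, M j 1 * M i 0 * H i j)
      (∑ i, ∑ j, M j 2 * M i 0 * H i j) (∑ i, ∑ j, M j 1 * M i 1 * H i j)
      (∑ i, ∑ j, M j 2 * M i 1 * H i j) (∑ i, ∑ j, M j 2 * M i 2 * H i j) =
    (∑ i, g i ^ 2) * (∑ i, H i i) + P * ∑ i, ∑ j, g i * g j * H i j := by
  obtain ⟨U0, hU0⟩ : ∃ U0, U0 = ∑ i, M i 0 * g i := ⟨_, rfl⟩
  obtain ⟨U1, hU1⟩ : ∃ U1, U1 = ∑ i, M i 1 * g i := ⟨_, rfl⟩
  obtain ⟨U2, hU2⟩ : ∃ U2, U2 = ∑ i, M i 2 * g i := ⟨_, rfl⟩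
  rw [← hU0, ← hU1, ← hU2]
  have c1 : ∀ i, M i 0 * U2 + M i 1 * U1 + M i 2 * U0 = g i := by
    intro i
    have h1 : M i 0 * U2 + M i 1 * U1 + M i 2 * U0 =
        ∑ j, (M i 0 * M j 2 + M i 1 * M j 1 + M i 2 * M j 0) * g j := by
      rw [hU0, hU1, hU2]
      simp only [Fin.sum_univ_three]
      ring
    rw [h1]
    simp only [hM i]
    simp
  have c2 : U1 ^ 2 + 2 * U0 * U2 = ∑ i, g i ^ 2 := by
    have e0 := c1 0
    have e1 := c1 1
    have e2 := c1 2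
    simp only [Fin.sum_univ_three] at hU0 hU1 hU2 ⊢
    linear_combination U2 * hU0 + U1 * hU1 + U0 * hU2 + g 0 * e0 + g 1 * e1 + g 2 * e2
  have c3 : (∑ i, ∑ j, M j 1 * M i 1 * H i j) + 2 * (∑ i, ∑ j, M j 2 * M i 0 * H i j) =
      ∑ i, H i i := by
    have h1 : (∑ i, ∑ j, M j 2 * M i 0 * H i j) = ∑ i, ∑ j, M j 0 * M i 2 * H i j := by
      rw [Finset.sum_comm]
      refine Finset.sum_congr rfl (fun i _ => Finset.sum_congr rfl (fun j _ => ?_))
      rw [hH j i]; ring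
    have h2 : (∑ i, ∑ j, M j 1 * M i 1 * H i j) + 2 * (∑ i, ∑ j, M j 2 * M i 0 * H i j) =
        ∑ i, ∑ j, (M i 0 * M j 2 + M i 1 * M j 1 + M i 2 * M j 0) * H i j := by
      rw [two_mul]
      nth_rw 2 [h1]
      simp only [Fin.sum_univ_three]
      ring
    have hM' : ∀ i j, M i 0 * M j 2 + M i 1 * M j 1 + M i 2 * M j 0 =
        if i = j then 1 else 0 := hM
    rw [h2]
    simp only [hM']
    simp
  have c4 : U2 ^ 2 * (∑ i, ∑ j, M j 0 * M i 0 * H i j) +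
      U1 ^ 2 * (∑ i, ∑ j, M j 1 * M i 1 * H i j) +
      U0 ^ 2 * (∑ i, ∑ j, M j 2 * M i 2 * H i j) +
      2 * U2 * U1 * (∑ i, ∑ j, M j 1 * M i 0 * H i j) +
      2 * U2 * U0 * (∑ i, ∑ j, M j 2 * M i 0 * H i j) +
      2 * U1 * U0 * (∑ i, ∑ j, M j 2 * M i 1 * H i j) = ∑ i, ∑ j, g i * g j * H i j := by
    have h1 : ∑ i, ∑ j, g i * g j * H i j = ∑ i, ∑ j,
        (M i 0 * U2 + M i 1 * U1 + M i 2 * U0) * (M j 0 * U2 + M j 1 * U1 + M j 2 * U0) *
          H i j :=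
      Finset.sum_congr rfl (fun i _ => Finset.sum_congr rfl (fun j _ => by rw [c1, c1]))
    rw [h1]
    simp only [Fin.sum_univ_three]
    rw [hH 1 0, hH 2 0, hH 2 1]
    ring
  unfold ENum
  rw [c2, c3, c4]

lemma EE_frame (P : ℂ) (M : Matrix (Fin 3) (Fin 3) ℂ) (hM : IsFrame M)
    (u : MvPolynomial (Fin 3) ℂ) (x : Fin 3 → ℂ) :
    EE P (bind₁ (fr M) u) x = EO P u (M.mulVec x) := by
  unfold EE EO
  simp only [eval_pderiv2_fr, eval_pderiv_fr]
  exact frame_alg P M hM (fun i => eval (M.mulVec x) (pderiv i u))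
    (fun i j => eval (M.mulVec x) (pderiv i (pderiv j u))) (fun i j => by rw [pderiv_comm])

/-- the gradient in terms of the frame derivatives -/
lemma grad_frame (M : Matrix (Fin 3) (Fin 3) ℂ) (hM : IsFrame M)
    (u : MvPolynomial (Fin 3) ℂ) (x : Fin 3 → ℂ) (i : Fin 3) :
    eval (M.mulVec x) (pderiv i u) =
      M i 0 * eval x (pderiv 2 (bind₁ (fr M) u)) + M i 1 * eval x (pderiv 1 (bind₁ (fr M) u)) +
        M i 2 * eval x (pderiv 0 (bind₁ (fr M) u)) := by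
  simp only [eval_pderiv_fr]
  have h1 : M i 0 * (∑ j, M j 2 * eval (M.mulVec x) (pderiv j u)) +
      M i 1 * (∑ j, M j 1 * eval (M.mulVec x) (pderiv j u)) +
      M i 2 * (∑ j, M j 0 * eval (M.mulVec x) (pderiv j u)) =
      ∑ j, (M i 0 * M j 2 + M i 1 * M j 1 + M i 2 * M j 0) * eval (M.mulVec x) (pderiv j u) := by
    simp only [Fin.sum_univ_three]
    ring
  rw [h1]
  simp only [hM i]
  simp

/-- three vectors with the Gram matrix of a null frame form a frame -/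
lemma isFrame_of_gram (M : Matrix (Fin 3) (Fin 3) ℂ)
    (h00 : ∑ i, M i 0 * M i 0 = 0) (h22 : ∑ i, M i 2 * M i 2 = 0) (h11 : ∑ i, M i 1 * M i 1 = 1)
    (h02 : ∑ i, M i 0 * M i 2 = 1) (h01 : ∑ i, M i 0 * M i 1 = 0)
    (h12 : ∑ i, M i 1 * M i 2 = 0) : IsFrame M := by
  set N : Matrix (Fin 3) (Fin 3) ℂ := fun a i => ![M i 2, M i 1, M i 0] a with hN
  have h1 : N * M = 1 := by
    ext a b
    rw [Matrix.mul_apply, Matrix.one_apply]
    simp only [Fin.sum_univ_three] at h00 h22 h11 h02 h01 h12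
    fin_cases a <;> fin_cases b <;> simp [hN, Fin.sum_univ_three]
    · linear_combination h02
    · linear_combination h12
    · linear_combination h22
    · linear_combination h01
    · linear_combination h11
    · linear_combination h12
    · linear_combination h00
    · linear_combination h01
    · linear_combination h02
  have h2 : M * N = 1 := mul_eq_one_comm.mp h1
  intro i j
  have h3 := congrFun (congrFun h2 i) j
  rw [Matrix.mul_apply, Matrix.one_apply, Fin.sum_univ_three] at h3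
  simpa [hN] using h3

end

end Pool.Agent.Helper43.PLap
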