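import Mathlib
import Pool.Agent.Helper43.PLap.Frame

set_option autoImplicit false

open MvPolynomial

namespace Pool.Agent.Helper43.PLap

noncomputable section

lemma eval_single_coeff {Q : MvPolynomial (Fin 3) ℂ} {n : ℕ} (hQ : Q.IsHomogeneous n) (i : Fin 3) :
    eval (Pi.single i 1) Q = coeff (Finsupp.single i n) Q := by
  classical
  rw [eval_eq']
  have h1 : ∀ d ∈ Q.support, coeff d Q * ∏ j, (Pi.single i (1 : ℂ) : Fin 3 → ℂ) j ^ d j =
      if d = Finsupp.single i n then coeff d Q else 0 := by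
    intro d hd
    have hdeg := hQ (mem_support_iff.mp hd)
    have hdeg' : ∑ j, d j = n := by
      rw [← hdeg, Finsupp.weight_apply, Finsupp.sum_fintype _ _ (by simp)]
      simp
    by_cases h : d = Finsupp.single i n
    · rw [if_pos h]
      have : ∏ j, (Pi.single i (1 : ℂ) : Fin 3 → ℂ) j ^ d j = 1 := by
        apply Finset.prod_eq_one
        intro j _
        by_cases hj : j = i
        · subst hj; simp
        · rw [h]; simp [hj]
      rw [this, mul_one]
    · rw [if_neg h]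
      have : ∃ j, j ≠ i ∧ d j ≠ 0 := by
        by_contra hcon
        push Not at hcon
        apply h
        ext j
        by_cases hj : j = i
        · subst hj
          rw [Finsupp.single_eq_same, ← hdeg']
          exact (Finset.sum_eq_single j (fun b _ hb => hcon b hb) (by simp)).symm
        · rw [hcon j hj, Finsupp.single_apply, if_neg (Ne.symm hj)]
      obtain ⟨j, hj, hdj⟩ := this
      have : ∏ j, (Pi.single i (1 : ℂ) : Fin 3 → ℂ) j ^ d j = 0 := by
        apply Finset.prod_eq_zero (Finset.mem_univ j)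
        simp [hj, hdj]
      rw [this, mul_zero]
  rw [Finset.sum_congr rfl h1, Finset.sum_ite_eq']
  by_cases h : Finsupp.single i n ∈ Q.support
  · rw [if_pos h]
  · rw [if_neg h, notMem_support_iff.mp h]

lemma eval_single_pderiv {U : MvPolynomial (Fin 3) ℂ} {m : ℕ} (hU : U.IsHomogeneous m) (i j : Fin 3) :
    eval (Pi.single i 1) (pderiv j U) =
      coeff (Finsupp.single i (m - 1) + Finsupp.single j 1) U *
        ((Finsupp.single i (m - 1) : Fin 3 →₀ ℕ) j + 1) := by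
  rw [eval_single_coeff hU.pderiv i, coeff_pderiv]

lemma eval_smul_hom {Q : MvPolynomial (Fin 3) ℂ} {n : ℕ} (hQ : Q.IsHomogeneous n) (l : ℂ)
    (z : Fin 3 → ℂ) : eval (fun i => l * z i) Q = l ^ n * eval z Q := by
  rw [eval_eq', eval_eq', Finset.mul_sum]
  refine Finset.sum_congr rfl (fun d hd => ?_)
  have hdeg := hQ (mem_support_iff.mp hd)
  have hdeg' : ∑ j, d j = n := by
    rw [← hdeg, Finsupp.weight_apply, Finsupp.sum_fintype _ _ (by simp)]
    simp
  simp only [mul_pow, Finset.prod_mul_distrib]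
  rw [Finset.prod_pow_eq_pow_sum, hdeg']
  ring

lemma mulVec_single (M : Matrix (Fin 3) (Fin 3) ℂ) (a : Fin 3) :
    M.mulVec (Pi.single a 1) = fun i => M i a := by
  rw [Matrix.mulVec_single_one]
  rfl

lemma fr_hom (M : Matrix (Fin 3) (Fin 3) ℂ) {u : MvPolynomial (Fin 3) ℂ} {m : ℕ}
    (hu : u.IsHomogeneous m) : (bind₁ (fr M) u).IsHomogeneous m := by
  have h1 : ∀ i, (fr M i).IsHomogeneous 1 := by
    intro i
    unfold fr
    apply IsHomogeneous.sum
    intro a _
    exact (isHomogeneous_C_mul_X _ _)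
  have := hu.aeval (fr M) h1
  rw [one_mul] at this
  exact this

/-- the real null frame attached to a normalised null vector -/
def rf (z : Fin 3 → ℂ) : Matrix (Fin 3) (Fin 3) ℂ := fun i =>
  ![z i, Complex.I * (![z 1 * star (z 2) - z 2 * star (z 1), z 2 * star (z 0) - z 0 * star (z 2),
    z 0 * star (z 1) - z 1 * star (z 0)] i), star (z i)]

lemma rf_frame (z : Fin 3 → ℂ) (hz : ∑ i, z i * z i = 0) (hn : ∑ i, z i * star (z i) = 1) :
    IsFrame (rf z) := by
  have hz' : ∑ i, star (z i) * star (z i) = 0 := by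
    have := congrArg star hz
    rw [star_sum, star_zero] at this
    rw [← this]
    refine Finset.sum_congr rfl (fun i _ => ?_)
    rw [star_mul]
  simp only [Fin.sum_univ_three] at hz hn hz'
  apply isFrame_of_gram <;> simp only [Fin.sum_univ_three, rf, Matrix.cons_val_zero,
    Matrix.cons_val_one, Matrix.cons_val]
  · exact hz
  · exact hz'
  · generalize star (z 0) = a0 at *
    generalize star (z 1) = a1 at *
    generalize star (z 2) = a2 at *
    have hI : Complex.I ^ 2 = -1 := Complex.I_sq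
    have h2 : (z 0 * a0 + z 1 * a1 + z 2 * a2) ^ 2 = 1 := by rw [hn]; ring
    linear_combination ((z 1 * a2 - z 2 * a1) ^ 2 + (z 2 * a0 - z 0 * a2) ^ 2 +
      (z 0 * a1 - z 1 * a0) ^ 2) * hI + h2 - (a0 * a0 + a1 * a1 + a2 * a2) * hz
  · exact hn
  · ring
  · ring

/-- reality of the frame polynomial -/
lemma rf_real (z : Fin 3 → ℂ) (u : MvPolynomial (Fin 3) ℝ) :
    map (starRingEnd ℂ) (bind₁ (fr (rf z)) (map (algebraMap ℝ ℂ) u)) =
      rename sw (bind₁ (fr (rf z)) (map (algebraMap ℝ ℂ) u)) := by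
  rw [map_bind₁, rename_bind₁, map_map]
  have h1 : (starRingEnd ℂ).comp (algebraMap ℝ ℂ) = algebraMap ℝ ℂ := by
    ext x; simp
  rw [h1]
  congr 2
  funext i
  have hfr : fr (rf z) i = C (rf z i 0) * X 0 + C (rf z i 1) * X 1 + C (rf z i 2) * X 2 := by
    unfold fr; rw [Fin.sum_univ_three]
  have e0 : (starRingEnd ℂ) (rf z i 0) = rf z i 2 := by simp [rf]
  have e2 : (starRingEnd ℂ) (rf z i 2) = rf z i 0 := by simp [rf]
  have e1 : (starRingEnd ℂ) (rf z i 1) = rf z i 1 := by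
    fin_cases i <;> simp [rf] <;> ring
  rw [hfr]
  generalize rf z i 0 = a0 at *
  generalize rf z i 1 = a1 at *
  generalize rf z i 2 = a2 at *
  simp only [map_add, map_mul, map_C, map_X, rename_C, rename_X, sw0, sw1, sw2, e0, e1, e2]
  ring

lemma frame_norm (M : Matrix (Fin 3) (Fin 3) ℂ) (hM : IsFrame M) (g : Fin 3 → ℂ) :
    (∑ i, M i 1 * g i) ^ 2 + 2 * (∑ i, M i 0 * g i) * (∑ i, M i 2 * g i) = ∑ i, g i ^ 2 := by
  obtain ⟨U0, hU0⟩ : ∃ U0, U0 = ∑ i, M i 0 * g i := ⟨_, rfl⟩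
  obtain ⟨U1, hU1⟩ : ∃ U1, U1 = ∑ i, M i 1 * g i := ⟨_, rfl⟩
  obtain ⟨U2, hU2⟩ : ∃ U2, U2 = ∑ i, M i 2 * g i := ⟨_, rfl⟩
  rw [← hU0, ← hU1, ← hU2]
  have c1 : ∀ i, M i 0 * U2 + M i 1 * U1 + M i 2 * U0 = g i := by
    intro i
    have h1 : M i 0 * U2 + M i 1 * U1 + M i 2 * U0 =
        ∑ j, (M i 0 * M j 2 + M i 1 * M j 1 + M i 2 * M j 0) * g j := by
      rw [hU0, hU1, hU2]
      simp only [Fin.sum_univ_three]
      ring
    rw [h1]
    simp only [hM i]
    simp
  have e0 := c1 0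
  have e1 := c1 1
  have e2 := c1 2
  simp only [Fin.sum_univ_three] at hU0 hU1 hU2 ⊢
  linear_combination U2 * hU0 + U1 * hU1 + U0 * hU2 + g 0 * e0 + g 1 * e1 + g 2 * e2

lemma frame_surj (M : Matrix (Fin 3) (Fin 3) ℂ) (hM : IsFrame M) (y : Fin 3 → ℂ) :
    ∃ x, M.mulVec x = y := by
  refine ⟨![∑ j, M j 2 * y j, ∑ j, M j 1 * y j, ∑ j, M j 0 * y j], ?_⟩
  funext i
  have h1 : M.mulVec ![∑ j, M j 2 * y j, ∑ j, M j 1 * y j, ∑ j, M j 0 * y j] i =
      ∑ j, (M i 0 * M j 2 + M i 1 * M j 1 + M i 2 * M j 0) * y j := by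
    simp [Matrix.mulVec, dotProduct, Fin.sum_univ_three]
    ring
  rw [h1]
  simp only [hM i]
  simp

lemma euler_eval {Q : MvPolynomial (Fin 3) ℂ} {n : ℕ} (hQ : Q.IsHomogeneous n) (y : Fin 3 → ℂ) :
    ∑ i, y i * eval y (pderiv i Q) = n * eval y Q := by
  have h := congrArg (eval y) hQ.sum_X_mul_pderiv
  simpa using h

lemma bind_ne_zero (M : Matrix (Fin 3) (Fin 3) ℂ) (hM : IsFrame M) {u : MvPolynomial (Fin 3) ℂ}
    (hu : u ≠ 0) : bind₁ (fr M) u ≠ 0 := by
  intro h
  apply hu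
  apply MvPolynomial.funext
  intro y
  obtain ⟨x, hx⟩ := frame_surj M hM y
  rw [← hx, ← eval_fr, h, map_zero, map_zero]

lemma claim_core (P : ℝ) (hP : -1 < P) (hP0 : P ≠ 0) (m : ℕ)
    (u : MvPolynomial (Fin 3) ℝ) (hu : u.IsHomogeneous m) (hu0 : u ≠ 0)
    (hEO : ∀ y, EO P (map (algebraMap ℝ ℂ) u) y = 0) (z : Fin 3 → ℂ)
    (hz : ∑ i, z i * z i = 0) (hn : ∑ i, z i * star (z i) = 1)
    (h0 : eval z (map (algebraMap ℝ ℂ) u) = 0)
    (h1 : ∑ i, rf z i 1 * eval z (pderiv i (map (algebraMap ℝ ℂ) u)) = 0) : False := by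
  set uC := map (algebraMap ℝ ℂ) u with huC
  have huCh : uC.IsHomogeneous m := hu.map _
  have huC0 : uC ≠ 0 := by
    intro h
    apply hu0
    apply map_injective (algebraMap ℝ ℂ) (algebraMap ℝ ℂ).injective
    rw [← huC, h, map_zero]
  have hM := rf_frame z hz hn
  set U := bind₁ (fr (rf z)) uC with hU
  have hUh : U.IsHomogeneous m := fr_hom _ huCh
  have hE : ∀ x, EE P U x = 0 := fun x => by rw [hU, EE_frame _ _ hM]; exact hEO _
  have hU0 : U ≠ 0 := bind_ne_zero _ hM huC0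
  have hcol : (rf z).mulVec (Pi.single 0 1) = z := by
    rw [mulVec_single]; funext i; simp [rf]
  have c0 : coeff (Finsupp.single 0 m) U = 0 := by
    rw [← eval_single_coeff hUh, hU, eval_fr, hcol]; exact h0
  have c1 : coeff (Finsupp.single 0 (m - 1) + Finsupp.single 1 1) U = 0 := by
    have h2 := eval_single_pderiv hUh 0 1
    rw [hU, eval_pderiv_fr, hcol, ← hU, h1] at h2
    simpa using h2.symm
  refine null_point P hP hP0 m U hUh hE ?_ ?_
  · intro d hd
    by_contra hlt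
    push Not at hlt
    have hdeg := deg_of_hom hUh (mem_support_iff.mp hd)
    have hd2 : d 2 = 0 := by omega
    rcases Nat.lt_or_ge (d 1) 1 with h | h
    · have : d = Finsupp.single 0 m := by
        apply ext3
        · simp; omega
        · simp; omega
        · simp [hd2]
      rw [this] at hd
      exact (mem_support_iff.mp hd) c0
    · have : d = Finsupp.single 0 (m - 1) + Finsupp.single 1 1 := by
        apply ext3
        · simp; omega
        · simp; omega
        · simp [hd2]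
      rw [this] at hd
      exact (mem_support_iff.mp hd) c1
  · obtain ⟨d, hd⟩ := Finset.nonempty_iff_ne_empty.mpr (fun h => hU0 (support_eq_empty.mp h))
    by_cases hdd : d 2 ≤ d 0
    · exact ⟨d, hd, hdd⟩
    · obtain ⟨e0, e1, e2⟩ := mapDomain_sw d
      refine ⟨Finsupp.mapDomain sw d, ?_, by omega⟩
      rw [mem_support_iff]
      intro h
      have h3 := rf_real z u
      rw [← huC, ← hU] at h3
      have h4 := congrArg (coeff (Finsupp.mapDomain sw d)) h3
      rw [coeff_map, h, map_zero, coeff_swap] at h4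
      exact (mem_support_iff.mp hd) h4.symm

lemma exists_scale (z : Fin 3 → ℂ) (hz : z ≠ 0) :
    ∃ l : ℝ, l ≠ 0 ∧ ∑ i, ((l : ℂ) * z i) * star ((l : ℂ) * z i) = 1 := by
  set r : ℝ := ∑ i, ‖z i‖ ^ 2 with hr
  have hr0 : 0 < r := by
    obtain ⟨i, hi⟩ := Function.ne_iff.mp hz
    refine Finset.sum_pos' (fun i _ => by positivity) ⟨i, Finset.mem_univ i, ?_⟩
    have : 0 < ‖z i‖ := norm_pos_iff.mpr hi
    positivity
  refine ⟨(Real.sqrt r)⁻¹, by positivity, ?_⟩
  have h1 : ∀ i, (((Real.sqrt r)⁻¹ : ℝ) : ℂ) * z i * star ((((Real.sqrt r)⁻¹ : ℝ) : ℂ) * z i) =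
      (((Real.sqrt r)⁻¹ ^ 2 * ‖z i‖ ^ 2 : ℝ) : ℂ) := by
    intro i
    rw [star_mul', Complex.star_def, Complex.conj_ofReal]
    have h2 := Complex.mul_conj (z i)
    rw [Complex.normSq_eq_norm_sq] at h2
    push_cast
    push_cast at h2
    linear_combination ((Real.sqrt r : ℂ)⁻¹) ^ 2 * h2
  simp only [h1]
  rw [← Complex.ofReal_sum, ← Finset.mul_sum, ← hr, inv_pow, Real.sq_sqrt hr0.le,
    inv_mul_cancel₀ hr0.ne']
  simp

/-- null vectors are not eigenvectors of the gradient -/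
lemma claim_a (P : ℝ) (hP : -1 < P) (hP0 : P ≠ 0) (m : ℕ) (hm : 1 ≤ m)
    (u : MvPolynomial (Fin 3) ℝ) (hu : u.IsHomogeneous m) (hu0 : u ≠ 0)
    (hEO : ∀ y, EO P (map (algebraMap ℝ ℂ) u) y = 0) (z : Fin 3 → ℂ) (hz0 : z ≠ 0)
    (hz : ∑ i, z i * z i = 0) (c : ℂ)
    (hc : ∀ i, eval z (pderiv i (map (algebraMap ℝ ℂ) u)) = c * z i) : False := by
  obtain ⟨l, hl, hl1⟩ := exists_scale z hz0
  have huCh : (map (algebraMap ℝ ℂ) u).IsHomogeneous m := hu.map _
  have hm0 : (m : ℂ) ≠ 0 := by exact_mod_cast (show m ≠ 0 by omega)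
  refine claim_core P hP hP0 m u hu hu0 hEO (fun i => (l : ℂ) * z i) ?_ hl1 ?_ ?_
  · have : ∀ i, (l : ℂ) * z i * ((l : ℂ) * z i) = (l : ℂ) ^ 2 * (z i * z i) := by
      intro i; ring
    simp only [this]
    rw [← Finset.mul_sum, hz, mul_zero]
  · rw [eval_smul_hom huCh]
    have h1 := euler_eval huCh z
    simp only [hc] at h1
    have h2 : ∑ i, z i * (c * z i) = c * ∑ i, z i * z i := by
      rw [Finset.mul_sum]; exact Finset.sum_congr rfl (fun i _ => by ring)
    rw [h2, hz, mul_zero] at h1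
    rw [(mul_eq_zero.mp h1.symm).resolve_left hm0, mul_zero]
  · have h1 : ∀ i, eval (fun i => (l : ℂ) * z i) (pderiv i (map (algebraMap ℝ ℂ) u)) =
        (l : ℂ) ^ (m - 1) * (c * z i) := by
      intro i
      rw [eval_smul_hom huCh.pderiv, hc]
    simp only [h1]
    rw [Fin.sum_univ_three]
    simp only [rf, Matrix.cons_val_zero, Matrix.cons_val_one, Matrix.cons_val]
    simp only [star_mul']
    ring

lemma claim_b (P : ℝ) (hP : -1 < P) (hP0 : P ≠ 0) (m : ℕ)
    (u : MvPolynomial (Fin 3) ℝ) (hu : u.IsHomogeneous m) (hu0 : u ≠ 0)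
    (hEO : ∀ y, EO P (map (algebraMap ℝ ℂ) u) y = 0) (z : Fin 3 → ℂ) (hz0 : z ≠ 0)
    (hz : ∑ i, z i * z i = 0) (h0 : eval z (map (algebraMap ℝ ℂ) u) = 0)
    (hN : ∑ i, (eval z (pderiv i (map (algebraMap ℝ ℂ) u))) ^ 2 = 0) : False := by
  obtain ⟨l, hl, hl1⟩ := exists_scale z hz0
  have huCh : (map (algebraMap ℝ ℂ) u).IsHomogeneous m := hu.map _
  have hz' : ∑ i, (l : ℂ) * z i * ((l : ℂ) * z i) = 0 := by
    have : ∀ i, (l : ℂ) * z i * ((l : ℂ) * z i) = (l : ℂ) ^ 2 * (z i * z i) := by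
      intro i; ring
    simp only [this]
    rw [← Finset.mul_sum, hz, mul_zero]
  have h0' : eval (fun i => (l : ℂ) * z i) (map (algebraMap ℝ ℂ) u) = 0 := by
    rw [eval_smul_hom huCh, h0, mul_zero]
  refine claim_core P hP hP0 m u hu hu0 hEO (fun i => (l : ℂ) * z i) hz' hl1 h0' ?_
  have hM := rf_frame _ hz' hl1
  have h1 := frame_norm _ hM
    (fun i => eval (fun i => (l : ℂ) * z i) (pderiv i (map (algebraMap ℝ ℂ) u)))
  have h2 : ∑ i, rf (fun i => (l : ℂ) * z i) i 0 *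
      eval (fun i => (l : ℂ) * z i) (pderiv i (map (algebraMap ℝ ℂ) u)) = 0 := by
    have h3 := euler_eval huCh (fun i => (l : ℂ) * z i)
    rw [h0', mul_zero] at h3
    rw [← h3]
    refine Finset.sum_congr rfl (fun i _ => ?_)
    simp [rf]
  have h3 : ∑ i, (eval (fun i => (l : ℂ) * z i) (pderiv i (map (algebraMap ℝ ℂ) u))) ^ 2 = 0 := by
    have h4 : ∀ i, (eval (fun i => (l : ℂ) * z i) (pderiv i (map (algebraMap ℝ ℂ) u))) ^ 2 =
        ((l : ℂ) ^ (m - 1)) ^ 2 * (eval z (pderiv i (map (algebraMap ℝ ℂ) u))) ^ 2 := by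
      intro i
      rw [eval_smul_hom huCh.pderiv]; ring
    simp only [h4]
    rw [← Finset.mul_sum, hN, mul_zero]
  rw [h2, h3, mul_zero, zero_mul, add_zero] at h1
  exact pow_eq_zero_iff (two_ne_zero) |>.mp h1

end

end Pool.Agent.Helper43.PLap
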