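import Mathlib
import Pool.Agent.Helper43.PLap.Claims

set_option autoImplicit false

open MvPolynomial

namespace Pool.Agent.Helper43.PLap

noncomputable section

/-- the column relations of a frame -/
lemma gram_of_frame (M : Matrix (Fin 3) (Fin 3) ℂ) (hM : IsFrame M) :
    (∑ i, M i 0 * M i 0 = 0) ∧ (∑ i, M i 2 * M i 2 = 0) ∧ (∑ i, M i 0 * M i 2 = 1) := by
  set N : Matrix (Fin 3) (Fin 3) ℂ := fun a i => ![M i 2, M i 1, M i 0] a with hN
  have h1 : M * N = 1 := by
    ext a b
    rw [Matrix.mul_apply, Matrix.one_apply, Fin.sum_univ_three]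
    have := hM a b
    simpa [hN] using this
  have h2 : N * M = 1 := mul_eq_one_comm.mp h1
  refine ⟨?_, ?_, ?_⟩
  · have h3 := congrFun (congrFun h2 2) 0
    rw [Matrix.mul_apply, Matrix.one_apply] at h3
    simpa [hN] using h3
  · have h3 := congrFun (congrFun h2 0) 2
    rw [Matrix.mul_apply, Matrix.one_apply] at h3
    simpa [hN] using h3
  · have h3 := congrFun (congrFun h2 2) 2
    rw [Matrix.mul_apply, Matrix.one_apply] at h3
    simpa [hN] using h3

lemma frame_exists0 (e : Fin 3 → ℂ) (he : e 0 ^ 2 + e 1 ^ 2 + e 2 ^ 2 = 1) (h0 : e 0 ^ 2 ≠ 1) :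
    ∃ M, IsFrame M ∧ ∀ i, M i 1 = e i := by
  obtain ⟨s, hs⟩ := IsAlgClosed.exists_pow_nat_eq (1 - e 0 ^ 2) (n := 2) (by norm_num)
  have hs0 : s ≠ 0 := by
    intro h
    apply h0
    rw [h] at hs
    linear_combination hs
  set a := e 0 with ha
  set b := e 1 with hb
  set c := e 2 with hc
  have hI : Complex.I ^ 2 = -1 := Complex.I_sq
  refine ⟨fun i => ![![s, (-a * b + Complex.I * c) / s, (-a * c - Complex.I * b) / s] i, e i,
    ![s / 2, (-a * b - Complex.I * c) / (2 * s), (-a * c + Complex.I * b) / (2 * s)] i], ?_,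
    fun i => by simp⟩
  have hbc : b ^ 2 + c ^ 2 = s ^ 2 := by rw [hs]; linear_combination he
  have ha2 : a ^ 2 = 1 - s ^ 2 := by rw [hs]; ring
  apply isFrame_of_gram <;> simp only [Fin.sum_univ_three, Matrix.cons_val_zero,
    Matrix.cons_val_one, Matrix.cons_val, ← ha, ← hb, ← hc]
  · field_simp
    linear_combination (a ^ 2 + Complex.I ^ 2) * hbc + s ^ 2 * hI + s ^ 2 * ha2
  · field_simp
    linear_combination (a ^ 2 + Complex.I ^ 2) * hbc + s ^ 2 * hI + s ^ 2 * ha2
  · linear_combination he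
  · field_simp
    linear_combination (a ^ 2 - Complex.I ^ 2) * hbc - s ^ 2 * hI + s ^ 2 * ha2
  · field_simp
    linear_combination -a * hbc
  · field_simp
    linear_combination -a * hbc

lemma frame_exists (e : Fin 3 → ℂ) (he : ∑ i, e i ^ 2 = 1) :
    ∃ M, IsFrame M ∧ ∀ i, M i 1 = e i := by
  have hk : ∃ k, e k ^ 2 ≠ 1 := by
    by_contra h
    push Not at h
    simp only [h] at he
    simp at he
  obtain ⟨k, hk⟩ := hk
  set σ : Equiv.Perm (Fin 3) := Equiv.swap 0 k with hσ
  have hs : ∑ i, (e (σ i)) ^ 2 = 1 := by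
    rw [← he]
    exact Equiv.sum_comp σ (fun i => e i ^ 2)
  rw [Fin.sum_univ_three] at hs
  obtain ⟨M, hM, hM1⟩ := frame_exists0 (fun i => e (σ i)) hs (by simpa [hσ] using hk)
  refine ⟨fun i a => M (σ i) a, ?_, ?_⟩
  · intro i j
    have := hM (σ i) (σ j)
    simpa using this
  · intro i
    show M (σ i) 1 = e i
    rw [hM1]
    simp [hσ]

lemma claim_c1 (P : ℝ) (hP : -1 < P) (hP0 : P ≠ 0) (m : ℕ) (hm : 1 ≤ m)
    (u : MvPolynomial (Fin 3) ℝ) (hu : u.IsHomogeneous m) (hu0 : u ≠ 0)
    (hEO : ∀ y, EO P (map (algebraMap ℝ ℂ) u) y = 0) (e : Fin 3 → ℂ)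
    (he : ∑ i, e i ^ 2 = 1) (h0 : eval e (map (algebraMap ℝ ℂ) u) = 0)
    (hN : ∑ i, (eval e (pderiv i (map (algebraMap ℝ ℂ) u))) ^ 2 = 0) : False := by
  obtain ⟨M, hM, hM1⟩ := frame_exists e he
  set uC := map (algebraMap ℝ ℂ) u with huC
  have huCh : uC.IsHomogeneous m := hu.map _
  have huC0 : uC ≠ 0 := by
    intro h
    apply hu0
    apply map_injective (algebraMap ℝ ℂ) (algebraMap ℝ ℂ).injective
    rw [← huC, h, map_zero]
  set U := bind₁ (fr M) uC with hU
  have hUh : U.IsHomogeneous m := fr_hom _ huCh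
  have hE : ∀ x, EE P U x = 0 := fun x => by rw [hU, EE_frame _ _ hM]; exact hEO _
  have hU0 : U ≠ 0 := bind_ne_zero _ hM huC0
  have hcol1 : M.mulVec (Pi.single 1 1) = e := by
    rw [mulVec_single]; funext i; simp [hM1]
  have hcol0 : M.mulVec (Pi.single 0 1) = fun i => M i 0 := mulVec_single _ _
  have hcol2 : M.mulVec (Pi.single 2 1) = fun i => M i 2 := mulVec_single _ _
  have c1 : coeff (Finsupp.single 1 m) U = 0 := by
    rw [← eval_single_coeff hUh, hU, eval_fr, hcol1]; exact h0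
  obtain ⟨g00, g22, g02⟩ := gram_of_frame M hM
  refine nonnull_point P hP hP0 m U hUh hE ?_ ?_ ?_ ?_
  · intro d hd
    by_contra hlt
    push Not at hlt
    have hdeg := deg_of_hom hUh (mem_support_iff.mp hd)
    have : d = Finsupp.single 1 m := by
      apply ext3
      · simp; omega
      · simp; omega
      · simp; omega
    rw [this] at hd
    exact (mem_support_iff.mp hd) c1
  · have h1 := frame_norm M hM (fun i => eval e (pderiv i uC))
    simp only [hM1] at h1
    rw [euler_eval huCh, h0, mul_zero, hN] at h1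
    have e0 : ∑ i, M i 0 * eval e (pderiv i uC) = eval (Pi.single 1 1) (pderiv 0 U) := by
      rw [hU, eval_pderiv_fr, hcol1]
    have e2 : ∑ i, M i 2 * eval e (pderiv i uC) = eval (Pi.single 1 1) (pderiv 2 U) := by
      rw [hU, eval_pderiv_fr, hcol1]
    rw [e0, e2] at h1
    have h2 : eval (Pi.single 1 1) (pderiv 0 U) = 0 ∨ eval (Pi.single 1 1) (pderiv 2 U) = 0 := by
      rcases mul_eq_zero.mp (by simpa using h1 :
        (2 * eval (Pi.single 1 1) (pderiv 0 U)) * eval (Pi.single 1 1) (pderiv 2 U) = 0) with h | h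
      · left; simpa using h
      · right; exact h
    rcases h2 with h2 | h2
    · right
      intro d hd hd1
      by_contra hd2
      rw [eval_single_pderiv hUh] at h2
      have hdeg := deg_of_hom hUh (mem_support_iff.mp hd)
      have : d = Finsupp.single 1 (m - 1) + Finsupp.single 0 1 := by
        apply ext3
        · simp; omega
        · simp; omega
        · simp; omega
      rw [← this] at h2
      apply mem_support_iff.mp hd
      simpa using h2
    · left
      intro d hd hd1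
      by_contra hd2
      rw [eval_single_pderiv hUh] at h2
      have hdeg := deg_of_hom hUh (mem_support_iff.mp hd)
      have : d = Finsupp.single 1 (m - 1) + Finsupp.single 2 1 := by
        apply ext3
        · simp; omega
        · simp; omega
        · simp; omega
      rw [← this] at h2
      apply mem_support_iff.mp hd
      simpa using h2
  · by_contra hcon
    push Not at hcon
    have hc : ∀ d : Fin 3 →₀ ℕ, d 2 = 0 → coeff d U = 0 := by
      intro d hd
      by_contra h
      exact hcon d (mem_support_iff.mpr h) hd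
    have hz0 : (fun i => M i 0) ≠ 0 := by
      intro h
      have : ∀ i, M i 0 = 0 := fun i => congrFun h i
      simp only [this] at g02
      simp at g02
    refine claim_a P hP hP0 m hm u hu hu0 hEO (fun i => M i 0) hz0 g00
      (eval (Pi.single 0 1) (pderiv 2 U)) (fun i => ?_)
    have h1 := grad_frame M hM uC (Pi.single 0 1) i
    rw [hcol0, ← hU, eval_single_pderiv hUh 0 1, eval_single_pderiv hUh 0 0,
      hc (Finsupp.single 0 (m - 1) + Finsupp.single 1 1) (by simp),
      hc (Finsupp.single 0 (m - 1) + Finsupp.single 0 1) (by simp)] at h1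
    rw [← huC, h1]
    ring
  · by_contra hcon
    push Not at hcon
    have hc : ∀ d : Fin 3 →₀ ℕ, d 0 = 0 → coeff d U = 0 := by
      intro d hd
      by_contra h
      exact hcon d (mem_support_iff.mpr h) hd
    have hz0 : (fun i => M i 2) ≠ 0 := by
      intro h
      have : ∀ i, M i 2 = 0 := fun i => congrFun h i
      simp only [this] at g02
      simp at g02
    refine claim_a P hP hP0 m hm u hu hu0 hEO (fun i => M i 2) hz0 g22
      (eval (Pi.single 2 1) (pderiv 0 U)) (fun i => ?_)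
    have h1 := grad_frame M hM uC (Pi.single 2 1) i
    rw [hcol2, ← hU, eval_single_pderiv hUh 2 1, eval_single_pderiv hUh 2 2,
      hc (Finsupp.single 2 (m - 1) + Finsupp.single 1 1) (by simp),
      hc (Finsupp.single 2 (m - 1) + Finsupp.single 2 1) (by simp)] at h1
    rw [← huC, h1]
    ring

lemma claim_c (P : ℝ) (hP : -1 < P) (hP0 : P ≠ 0) (m : ℕ) (hm : 1 ≤ m)
    (u : MvPolynomial (Fin 3) ℝ) (hu : u.IsHomogeneous m) (hu0 : u ≠ 0)
    (hEO : ∀ y, EO P (map (algebraMap ℝ ℂ) u) y = 0) (x : Fin 3 → ℂ)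
    (hx : ∑ i, x i * x i ≠ 0) (h0 : eval x (map (algebraMap ℝ ℂ) u) = 0)
    (hN : ∑ i, (eval x (pderiv i (map (algebraMap ℝ ℂ) u))) ^ 2 = 0) : False := by
  obtain ⟨μ, hμ⟩ := IsAlgClosed.exists_pow_nat_eq (∑ i, x i * x i) (n := 2) (by norm_num)
  have hμ0 : μ ≠ 0 := by
    intro h
    apply hx
    rw [← hμ, h]
    ring
  have huCh : (map (algebraMap ℝ ℂ) u).IsHomogeneous m := hu.map _
  refine claim_c1 P hP hP0 m hm u hu hu0 hEO (fun i => μ⁻¹ * x i) ?_ ?_ ?_
  · simp only [mul_pow]
    rw [← Finset.mul_sum]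
    have : ∑ i, x i ^ 2 = μ ^ 2 := by
      rw [hμ]; exact Finset.sum_congr rfl (fun i _ => by ring)
    rw [this]
    field_simp
  · rw [eval_smul_hom huCh, h0, mul_zero]
  · have h4 : ∀ i, (eval (fun i => μ⁻¹ * x i) (pderiv i (map (algebraMap ℝ ℂ) u))) ^ 2 =
        (μ⁻¹ ^ (m - 1)) ^ 2 * (eval x (pderiv i (map (algebraMap ℝ ℂ) u))) ^ 2 := by
      intro i
      rw [eval_smul_hom huCh.pderiv]; ring
    simp only [h4]
    rw [← Finset.mul_sum, hN, mul_zero]

/-- no common zero of `u` and the squared gradient outside the origin -/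
lemma no_common_zero (P : ℝ) (hP : -1 < P) (hP0 : P ≠ 0) (m : ℕ) (hm : 1 ≤ m)
    (u : MvPolynomial (Fin 3) ℝ) (hu : u.IsHomogeneous m) (hu0 : u ≠ 0)
    (hEO : ∀ y, EO P (map (algebraMap ℝ ℂ) u) y = 0) (x : Fin 3 → ℂ)
    (h0 : eval x (map (algebraMap ℝ ℂ) u) = 0)
    (hN : ∑ i, (eval x (pderiv i (map (algebraMap ℝ ℂ) u))) ^ 2 = 0) : x = 0 := by
  by_contra hx0
  by_cases hx : ∑ i, x i * x i = 0
  · exact claim_b P hP hP0 m u hu hu0 hEO x hx0 hx h0 hN
  · exact claim_c P hP hP0 m hm u hu hu0 hEO x hx h0 hN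

end

end Pool.Agent.Helper43.PLap
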