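import Mathlib

set_option autoImplicit false

open MvPolynomial

namespace Pool.Agent.Helper43.PLap

noncomputable section

def k1 : Ideal (MvPolynomial (Fin 3) ℂ) :=
  RingHom.ker (aeval ![0, X 1, X 2] : MvPolynomial (Fin 3) ℂ →ₐ[ℂ] MvPolynomial (Fin 3) ℂ)

def k2 : Ideal (MvPolynomial (Fin 3) ℂ) :=
  RingHom.ker (aeval ![0, 0, X 2] : MvPolynomial (Fin 3) ℂ →ₐ[ℂ] MvPolynomial (Fin 3) ℂ)

def k3 : Ideal (MvPolynomial (Fin 3) ℂ) :=
  RingHom.ker (aeval ![0, 0, 0] : MvPolynomial (Fin 3) ℂ →ₐ[ℂ] MvPolynomial (Fin 3) ℂ)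

instance : k1.IsPrime := RingHom.ker_isPrime _
instance : k2.IsPrime := RingHom.ker_isPrime _
instance : k3.IsPrime := RingHom.ker_isPrime _

lemma k12 : k1 < k2 := by
  rw [SetLike.lt_iff_le_and_exists]
  refine ⟨?_, X 1, ?_, ?_⟩
  · intro q hq
    rw [k1, RingHom.mem_ker] at hq
    rw [k2, RingHom.mem_ker]
    have h := congrArg (aeval ![0, 0, X 2] : MvPolynomial (Fin 3) ℂ →ₐ[ℂ] MvPolynomial (Fin 3) ℂ) hq
    have h2 : (aeval ![0, 0, X 2] : MvPolynomial (Fin 3) ℂ →ₐ[ℂ] MvPolynomial (Fin 3) ℂ)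
        ((aeval ![0, X 1, X 2] : MvPolynomial (Fin 3) ℂ →ₐ[ℂ] MvPolynomial (Fin 3) ℂ) q) =
        (aeval ![0, 0, X 2] : MvPolynomial (Fin 3) ℂ →ₐ[ℂ] MvPolynomial (Fin 3) ℂ) q := by
      rw [← AlgHom.comp_apply]
      congr 1
      apply algHom_ext
      intro i
      fin_cases i <;> simp
    erw [h2] at h
    simpa using h
  · rw [k2, RingHom.mem_ker]; simp
  · rw [k1, RingHom.mem_ker]; simp

lemma k23 : k2 < k3 := by
  rw [SetLike.lt_iff_le_and_exists]
  refine ⟨?_, X 2, ?_, ?_⟩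
  · intro q hq
    rw [k2, RingHom.mem_ker] at hq
    rw [k3, RingHom.mem_ker]
    have h := congrArg (aeval ![0, 0, 0] : MvPolynomial (Fin 3) ℂ →ₐ[ℂ] MvPolynomial (Fin 3) ℂ) hq
    have h2 : (aeval ![0, 0, 0] : MvPolynomial (Fin 3) ℂ →ₐ[ℂ] MvPolynomial (Fin 3) ℂ)
        ((aeval ![0, 0, X 2] : MvPolynomial (Fin 3) ℂ →ₐ[ℂ] MvPolynomial (Fin 3) ℂ) q) =
        (aeval ![0, 0, 0] : MvPolynomial (Fin 3) ℂ →ₐ[ℂ] MvPolynomial (Fin 3) ℂ) q := by
      rw [← AlgHom.comp_apply]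
      congr 1
      apply algHom_ext
      intro i
      fin_cases i <;> simp
    erw [h2] at h
    simpa using h
  · rw [k3, RingHom.mem_ker]; simp
  · rw [k2, RingHom.mem_ker]; simp

lemma k01 : (⊥ : Ideal (MvPolynomial (Fin 3) ℂ)) < k1 := by
  rw [SetLike.lt_iff_le_and_exists]
  refine ⟨bot_le, X 0, ?_, ?_⟩
  · rw [k1, RingHom.mem_ker]; simp
  · simp

lemma height_k3 : 3 ≤ k3.height := by
  have h0 : (⊥ : Ideal (MvPolynomial (Fin 3) ℂ)).height + 1 ≤ k1.height :=
    Ideal.height_add_one_le_of_lt_of_isPrime k01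
  have h1 : k1.height + 1 ≤ k2.height := Ideal.height_add_one_le_of_lt_of_isPrime k12
  have h2 : k2.height + 1 ≤ k3.height := Ideal.height_add_one_le_of_lt_of_isPrime k23
  rw [Ideal.height_bot] at h0
  calc (3 : ℕ∞) = 0 + 1 + 1 + 1 := by norm_num
    _ ≤ k1.height + 1 + 1 := by gcongr
    _ ≤ k2.height + 1 := by gcongr
    _ ≤ k3.height := h2

lemma mem_k3 (q : MvPolynomial (Fin 3) ℂ) : q ∈ k3 ↔ eval 0 q = 0 := by
  rw [k3, RingHom.mem_ker]
  have : (aeval ![0, 0, 0] : MvPolynomial (Fin 3) ℂ →ₐ[ℂ] MvPolynomial (Fin 3) ℂ) q =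
      C (eval 0 q) := by
    have h : (aeval ![0, 0, 0] : MvPolynomial (Fin 3) ℂ →ₐ[ℂ] MvPolynomial (Fin 3) ℂ) =
        (Algebra.ofId ℂ (MvPolynomial (Fin 3) ℂ)).comp (aeval (0 : Fin 3 → ℂ)) := by
      apply algHom_ext
      intro i
      fin_cases i <;> simp
    rw [h, AlgHom.comp_apply]
    rfl
  rw [this, C_eq_zero]

/-- two homogeneous polynomials of positive degree in three variables have a common
projective zero -/
theorem common_zero (f g : MvPolynomial (Fin 3) ℂ) (hf : eval 0 f = 0) (hg : eval 0 g = 0) :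
    ∃ x : Fin 3 → ℂ, x ≠ 0 ∧ eval x f = 0 ∧ eval x g = 0 := by
  classical
  by_contra hcon
  push Not at hcon
  have hx : ∀ x : Fin 3 → ℂ, eval x f = 0 → eval x g = 0 → x = 0 := by
    intro x h1 h2
    by_contra h
    exact hcon x h h1 h2
  set I : Ideal (MvPolynomial (Fin 3) ℂ) := Ideal.span (({f, g} : Finset _) : Set _) with hI
  have hz : zeroLocus ℂ I = {0} := by
    rw [hI, zeroLocus_span]
    ext x
    simp only [Set.mem_ofPred_eq, Set.mem_singleton_iff]
    constructor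
    · intro h
      have h1 := h f (by simp)
      have h2 := h g (by simp)
      exact hx x (by simpa [aeval_eq_eval] using h1) (by simpa [aeval_eq_eval] using h2)
    · intro h q hq
      subst h
      simp only [Finset.coe_insert, Finset.coe_singleton, Set.mem_insert_iff,
        Set.mem_singleton_iff] at hq
      rcases hq with rfl | rfl
      · simpa [aeval_eq_eval] using hf
      · simpa [aeval_eq_eval] using hg
  have hrad : I.radical = k3 := by
    rw [← vanishingIdeal_zeroLocus_eq_radical (K := ℂ), hz]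
    ext q
    rw [mem_vanishingIdeal_singleton_iff, mem_k3]
    simp [aeval_eq_eval]
  have hmin : k3 ∈ I.minimalPrimes := by
    rw [← Ideal.radical_minimalPrimes, hrad, Ideal.minimalPrimes_eq_subsingleton_self]
    simp
  have h1 := Ideal.height_le_card_of_mem_minimalPrimes_span_finset hmin
  have h2 : (({f, g} : Finset (MvPolynomial (Fin 3) ℂ)).card : ℕ∞) ≤ 2 := by
    exact_mod_cast Finset.card_le_two
  have h3 := height_k3.trans (h1.trans h2)
  exact absurd h3 (by norm_num)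

end

end Pool.Agent.Helper43.PLap
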