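import Mathlib
import Pool.Agent.Helper43.PLap.ClaimC
import Pool.Agent.Helper43.PLap.CommonZero

set_option autoImplicit false

open MvPolynomial

namespace Pool.Agent.Helper43.PLap

noncomputable section

/-- the operator as a polynomial -/
def EP {R : Type*} [CommRing R] (P : R) (u : MvPolynomial (Fin 3) R) : MvPolynomial (Fin 3) R :=
  (∑ i, (pderiv i u) ^ 2) * (∑ i, pderiv i (pderiv i u)) +
    C P * ∑ i, ∑ j, pderiv i u * pderiv j u * pderiv i (pderiv j u)

lemma EP_map (P : ℝ) (u : MvPolynomial (Fin 3) ℝ) :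
    map (algebraMap ℝ ℂ) (EP P u) = EP (P : ℂ) (map (algebraMap ℝ ℂ) u) := by
  unfold EP
  simp only [map_add, map_mul, map_sum, map_pow, map_C, pderiv_map]
  rfl

theorem dim_three (p : ℝ) (hp : 1 < p) (hp2 : p ≠ 2) (m : ℕ) (hm : 2 ≤ m)
    (u : MvPolynomial (Fin 3) ℝ) (hu0 : u ≠ 0) (hu : u.IsHomogeneous m)
    (h : ∀ x : Fin 3 → ℝ,
      (∑ i, (eval x (pderiv i u)) ^ 2) * (∑ i, eval x (pderiv i (pderiv i u))) +
        (p - 2) * ∑ i, ∑ j, eval x (pderiv i u) * eval x (pderiv j u) *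
          eval x (pderiv i (pderiv j u)) = 0) : False := by
  have h1 : EP (p - 2) u = 0 := by
    apply MvPolynomial.funext
    intro x
    have := h x
    unfold EP
    simpa using this
  have h2 : ∀ y, EO ((p - 2 : ℝ) : ℂ) (map (algebraMap ℝ ℂ) u) y = 0 := by
    intro y
    have h3 := EP_map (p - 2) u
    rw [h1, map_zero] at h3
    have h4 := congrArg (eval y) h3.symm
    unfold EP at h4
    unfold EO
    simpa using h4
  have huCh : (map (algebraMap ℝ ℂ) u).IsHomogeneous m := hu.map _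
  have e0 : ∀ (Q : MvPolynomial (Fin 3) ℂ) (k : ℕ), Q.IsHomogeneous k → k ≠ 0 → eval 0 Q = 0 := by
    intro Q k hQ hk
    have h5 := eval_smul_hom hQ 0 0
    rw [zero_pow hk, zero_mul] at h5
    simpa using h5
  obtain ⟨x, hx, hf, hg⟩ := common_zero (map (algebraMap ℝ ℂ) u)
    (∑ i, (pderiv i (map (algebraMap ℝ ℂ) u)) ^ 2) (e0 _ m huCh (by omega)) (by
      rw [map_sum]
      apply Finset.sum_eq_zero
      intro i _
      rw [map_pow, e0 _ (m - 1) huCh.pderiv (by omega)]
      simp)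
  apply hx
  refine no_common_zero (p - 2) (by linarith) (sub_ne_zero.mpr hp2) m (by omega) u hu hu0 h2 x hf ?_
  simpa using hg

end

end Pool.Agent.Helper43.PLap
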